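import Pool.Agent.Lead.MK.Stubs

/-!
# Project MK: averaging
-/

set_option autoImplicit false

namespace Pool.Agent.Lead.MK.T.AVG

open Finset

theorem main (hF : S_FIN) : S_AVG := by
  intro k d Q hk hd hQ
  classical
  haveI : NeZero (Q ^ k) := ⟨pow_ne_zero _ (by omega)⟩
  set M : ℕ := d * Q ^ (k * k - k) with hM
  have hQk : 0 < Q ^ k := pow_pos (by omega) _
  have hM1 : 1 ≤ M := Nat.mul_pos hd (pow_pos (by omega) _)
  have hkk : k ≤ k * k := Nat.le_mul_self k
  have hMQ : Q ^ k * M = d * Q ^ (k * k) := by
    rw [hM, mul_left_comm, ← pow_add, Nat.add_sub_cancel' hkk]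
  -- the maximum
  obtain ⟨m0, hm0, hmax⟩ := Finset.exists_max_image (Icc 1 M) (fun m => NN k d (Q ^ k * m))
    ⟨1, Finset.mem_Icc.2 ⟨le_rfl, hM1⟩⟩
  rw [Finset.mem_Icc] at hm0
  refine ⟨Q ^ k * m0, Nat.mul_pos hQk (by omega), ?_, ?_⟩
  · rw [← hMQ]
    exact Nat.mul_le_mul_left _ hm0.2
  · set S := univ.filter (fun x : Fin d → ZMod (Q ^ k) => x ≠ 0 ∧ ∑ i, x i ^ k = 0) with hS
    have hSol : Sol k d (Q ^ k) = S.card + 1 := by
      unfold Sol
      rw [Nat.card_eq_fintype_card, Fintype.card_subtype]
      have h0 : (0 : Fin d → ZMod (Q ^ k)) ∉ S := by simp [hS]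
      rw [← Finset.card_insert_of_notMem h0]
      congr 1
      ext x
      simp only [hS, mem_filter, mem_univ, true_and, mem_insert]
      constructor
      · intro h
        by_cases hx : x = 0
        · exact Or.inl hx
        · exact Or.inr ⟨hx, h⟩
      · rintro (h | h)
        · subst h
          simp [zero_pow (show k ≠ 0 by omega)]
        · exact h.2
    -- the sum of the k-th powers of the representatives
    set σ : (Fin d → ZMod (Q ^ k)) → ℕ := fun x => ∑ i, (x i).val ^ k with hσ
    have hdvd : ∀ x ∈ S, Q ^ k ∣ σ x := by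
      intro x hx
      have hx' := (Finset.mem_filter.1 hx).2.2
      rw [← ZMod.natCast_eq_zero_iff]
      simp only [hσ]
      push_cast
      rw [← hx']
      refine Finset.sum_congr rfl fun i _ => ?_
      rw [ZMod.natCast_zmod_val]
    have hpos : ∀ x ∈ S, 0 < σ x := by
      intro x hx
      have hx' := (Finset.mem_filter.1 hx).2.1
      obtain ⟨i, hi⟩ : ∃ i, x i ≠ 0 := by
        by_contra h
        push Not at h
        exact hx' (funext h)
      refine Finset.sum_pos' (fun _ _ => Nat.zero_le _) ⟨i, Finset.mem_univ i, ?_⟩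
      apply pow_pos
      rw [Nat.pos_iff_ne_zero]
      intro h
      exact hi ((ZMod.val_eq_zero _).1 h)
    have hle : ∀ x, σ x ≤ d * Q ^ (k * k) := by
      intro x
      have : ∀ i ∈ (univ : Finset (Fin d)), (x i).val ^ k ≤ Q ^ (k * k) := by
        intro i _
        rw [pow_mul]
        exact Nat.pow_le_pow_left (ZMod.val_lt _).le _
      have := Finset.sum_le_card_nsmul _ _ _ this
      simpa [hσ] using this
    have hmaps : ∀ x ∈ S, σ x / Q ^ k ∈ Icc 1 M := by
      intro x hx
      rw [Finset.mem_Icc]
      constructor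
      · exact Nat.div_pos (Nat.le_of_dvd (hpos x hx) (hdvd x hx)) hQk
      · apply Nat.div_le_of_le_mul
        rw [hMQ]
        exact hle x
    have hcard := Finset.card_eq_sum_card_fiberwise (f := fun x => σ x / Q ^ k) (s := S)
      (t := Icc 1 M) (fun x hx => hmaps x hx)
    have hfib : ∀ m ∈ Icc 1 M, (S.filter (fun x => σ x / Q ^ k = m)).card ≤
        NN k d (Q ^ k * m0) := by
      intro m hm
      refine le_trans ?_ (hmax m hm)
      have hfin := (hF k d (Q ^ k * m) (by omega)).1
      unfold NN
      rw [Set.ncard_eq_toFinset_card _ hfin]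
      apply Finset.card_le_card_of_injOn (fun x => fun i => ((x i).val : ℤ))
      · intro x hx
        have hx' := Finset.mem_filter.1 (Finset.mem_coe.1 hx)
        have h1 : σ x = Q ^ k * m := by
          rw [← hx'.2]
          exact (Nat.mul_div_cancel' (hdvd x hx'.1)).symm
        have h2 : (fun i => ((x i).val : ℤ)) ∈ Sph k d (Q ^ k * m) := by
          change ∑ i, |((x i).val : ℤ)| ^ k = ((Q ^ k * m : ℕ) : ℤ)
          rw [← h1]
          simp only [hσ, Nat.abs_cast]
          push_cast
          rfl
        simpa using h2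
      · intro x _ y _ h
        funext i
        have := congrFun h i
        simp only [Nat.cast_inj] at this
        exact ZMod.val_injective _ this
    have htot : S.card ≤ M * NN k d (Q ^ k * m0) := by
      rw [hcard]
      refine (Finset.sum_le_card_nsmul _ _ _ hfib).trans ?_
      simp
    rw [hSol]
    push_cast
    have : (S.card : ℝ) ≤ (M : ℝ) * (NN k d (Q ^ k * m0) : ℝ) := by exact_mod_cast htot
    rw [hM] at this
    push_cast at this
    linarith

end Pool.Agent.Lead.MK.T.AVG
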