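import Pool.Agent.Lead.MK.Stubs

/-! MK-CRT (helper63) -/

set_option autoImplicit false

namespace Pool.Agent.Lead.MK.T.CRT

theorem main : S_CRT := by
  intro k d a b ha hb hab
  have : NeZero a := ⟨by omega⟩
  have : NeZero b := ⟨by omega⟩
  let e : ZMod (a * b) ≃+* ZMod a × ZMod b := ZMod.chineseRemainder hab
  let E : (Fin d → ZMod (a * b)) ≃ (Fin d → ZMod a) × (Fin d → ZMod b) :=
    { toFun := fun x => (fun i => (e (x i)).1, fun i => (e (x i)).2)
      invFun := fun z i => e.symm (z.1 i, z.2 i)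
      left_inv := fun x => by
        funext i
        simp
      right_inv := fun z => by
        simp }
  unfold Sol
  rw [← Nat.card_prod]
  refine Nat.card_congr ((E.subtypeEquiv (q := fun z => ∑ i, z.1 i ^ k = 0 ∧ ∑ i, z.2 i ^ k = 0)
    fun x => ?_).trans (Equiv.subtypeProdEquivProd (p := fun x : Fin d → ZMod a => ∑ i, x i ^ k = 0)
      (q := fun x : Fin d → ZMod b => ∑ i, x i ^ k = 0)))
  rw [← e.map_eq_zero_iff, map_sum]
  simp only [map_pow]
  rw [Prod.ext_iff, Prod.fst_sum, Prod.snd_sum]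
  rfl

end Pool.Agent.Lead.MK.T.CRT
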