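import Pool.Agent.Lead.MK.Stubs

/-! MK-FIN (helper63) -/

set_option autoImplicit false

namespace Pool.Agent.Lead.MK.T.FIN

theorem sub_Icc {k d n : ℕ} (hk : 1 ≤ k) :
    Sph k d n ⊆ ((Finset.Icc (fun _ : Fin d => -(n : ℤ)) (fun _ => (n : ℤ)) : Finset (Fin d → ℤ)) :
      Set (Fin d → ℤ)) := by
  intro m hm
  have hm' : ∑ i, |m i| ^ k = (n : ℤ) := hm
  rw [Finset.coe_Icc, Set.mem_Icc]
  have key : ∀ i, |m i| ≤ n := by
    intro i
    have h1 : |m i| ^ k ≤ (n : ℤ) := by
      rw [← hm']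
      exact Finset.single_le_sum (f := fun i => |m i| ^ k) (fun j _ => by positivity)
        (Finset.mem_univ i)
    refine le_trans ?_ h1
    rcases (abs_nonneg (m i)).eq_or_lt with h | h
    · rw [← h, zero_pow (by omega)]
    · exact le_self_pow₀ (by omega) (by omega)
  exact ⟨fun i => (abs_le.1 (key i)).1, fun i => (abs_le.1 (key i)).2⟩

theorem main : S_FIN := by
  intro k d n hk
  refine ⟨(Finset.finite_toSet _).subset (sub_Icc hk), ?_⟩
  unfold NN
  refine (Set.ncard_le_ncard (sub_Icc hk) (Finset.finite_toSet _)).trans ?_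
  rw [Set.ncard_coe_finset, Pi.card_Icc]
  simp only [Int.card_Icc, Finset.prod_const, Finset.card_univ, Fintype.card_fin]
  refine Nat.pow_le_pow_left ?_ _
  omega

end Pool.Agent.Lead.MK.T.FIN
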