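import Pool.Agent.Lead.MK.Stubs

/-!
# Project MK: the number of solutions modulo a prime
-/

set_option autoImplicit false

namespace Pool.Agent.Lead.MK.T.FP

open Finset

theorem sol_prim (k d p : ℕ) [hp : Fact p.Prime] (hk : 1 ≤ k) : Sol k d p = Prim k d p + 1 := by
  classical
  unfold Sol Prim
  rw [Nat.card_eq_fintype_card, Fintype.card_subtype, Nat.card_eq_fintype_card,
    Fintype.card_subtype]
  have h0 : (0 : Fin d → ZMod p) ∉ univ.filter (fun x : Fin d → ZMod p => x ≠ 0 ∧ ∑ i, x i ^ k = 0) := by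
    simp
  rw [← Finset.card_insert_of_notMem h0]
  congr 1
  ext x
  simp only [mem_filter, mem_univ, true_and, mem_insert]
  constructor
  · intro h
    by_cases hx : x = 0
    · exact Or.inl hx
    · exact Or.inr ⟨hx, h⟩
  · rintro (h | h)
    · subst h
      simp [zero_pow (show k ≠ 0 by omega)]
    · exact h.2

theorem main (h1 : S_G1) (h2 : S_G2) (h3 : S_G3) : S_FP := by
  intro k hk
  refine ⟨(k : ℝ) ^ (k + 1), by positivity, ?_⟩
  intro p hpp
  classical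
  haveI : Fact p.Prime := ⟨hpp⟩
  have hp2 : 2 ≤ p := hpp.two_le
  have hpR : (2 : ℝ) ≤ p := by exact_mod_cast hp2
  have hp0 : (0 : ℝ) < p := by linarith
  have hG0 : GG k p 0 = p := by
    unfold GG
    simp [ZMod.card]
  have e1 : (p : ℝ) * (Sol k (k + 1) p : ℝ) = (p : ℝ) ^ (k + 1) +
      ∑ t ∈ univ.erase (0 : ZMod p), (GG k p t ^ (k + 1)).re := by
    have := congrArg Complex.re (h1 k (k + 1) p)
    rw [← Finset.add_sum_erase _ _ (Finset.mem_univ (0 : ZMod p)), Complex.add_re, hG0,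
      Complex.re_sum] at this
    have a1 : ((p : ℂ) * (Sol k (k + 1) p : ℂ)).re = (p : ℝ) * (Sol k (k + 1) p : ℝ) := by
      rw [← Nat.cast_mul, ← Nat.cast_mul]
      exact Complex.natCast_re _
    have a2 : ((p : ℂ) ^ (k + 1)).re = (p : ℝ) ^ (k + 1) := by
      rw [← Nat.cast_pow, ← Nat.cast_pow]
      exact Complex.natCast_re _
    rw [a1, a2] at this
    exact this
  have e2 : ((Prim k (k + 1) p : ℝ) + 1) = (Sol k (k + 1) p : ℝ) := by
    rw [sol_prim k (k + 1) p (by omega)]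
    push_cast
    ring
  rw [e2]
  have hr : (0 : ℝ) ≤ (p : ℝ) ^ (-(3 / 2) : ℝ) := by positivity
  rcases Nat.even_or_odd k with he | ho
  · -- even exponent
    have hk4 : 4 ≤ k := by
      rcases he with ⟨r, hr⟩
      omega
    have e3 : ∀ t ∈ univ.erase (0 : ZMod p), -((k : ℝ) ^ (k + 1) * (√(p : ℝ)) ^ (k + 1)) ≤
        (GG k p t ^ (k + 1)).re := by
      intro t ht
      have b1 := h2 k p (by omega) t (Finset.ne_of_mem_erase ht)
      have b2 : |(GG k p t ^ (k + 1)).re| ≤ (k : ℝ) ^ (k + 1) * (√(p : ℝ)) ^ (k + 1) := by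
        refine (Complex.abs_re_le_norm _).trans ?_
        rw [norm_pow, ← mul_pow]
        exact pow_le_pow_left₀ (norm_nonneg _) b1 _
      exact (abs_le.1 b2).1
    have e4 : -((p : ℝ) * ((k : ℝ) ^ (k + 1) * (√(p : ℝ)) ^ (k + 1))) ≤
        ∑ t ∈ univ.erase (0 : ZMod p), (GG k p t ^ (k + 1)).re := by
      have c1 := Finset.card_nsmul_le_sum _ _ _ e3
      refine le_trans ?_ c1
      rw [Finset.card_erase_of_mem (Finset.mem_univ _), Finset.card_univ, ZMod.card, nsmul_eq_mul,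
        Nat.cast_sub (by omega), Nat.cast_one]
      have c2 : (0 : ℝ) ≤ (k : ℝ) ^ (k + 1) * (√(p : ℝ)) ^ (k + 1) := by positivity
      nlinarith
    have e5 : (√(p : ℝ)) ^ (k + 1) ≤ (p : ℝ) ^ k * (p : ℝ) ^ (-(3 / 2) : ℝ) := by
      rw [Real.sqrt_eq_rpow, ← Real.rpow_natCast, ← Real.rpow_mul hp0.le, ← Real.rpow_natCast (p : ℝ) k,
        ← Real.rpow_add hp0]
      apply Real.rpow_le_rpow_of_exponent_le (by linarith)
      have : (4 : ℝ) ≤ k := by exact_mod_cast hk4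
      push_cast
      linarith
    have e6 : (p : ℝ) * ((p : ℝ) ^ k * (1 - (k : ℝ) ^ (k + 1) * (p : ℝ) ^ (-(3 / 2) : ℝ))) ≤
        (p : ℝ) * (Sol k (k + 1) p : ℝ) := by
      rw [e1]
      have c3 : (p : ℝ) * ((k : ℝ) ^ (k + 1) * (√(p : ℝ)) ^ (k + 1)) ≤
          (p : ℝ) * ((k : ℝ) ^ (k + 1) * ((p : ℝ) ^ k * (p : ℝ) ^ (-(3 / 2) : ℝ))) := by
        gcongr
      have c4 : (p : ℝ) * ((p : ℝ) ^ k * (1 - (k : ℝ) ^ (k + 1) * (p : ℝ) ^ (-(3 / 2) : ℝ))) =
          (p : ℝ) ^ (k + 1) - (p : ℝ) * ((k : ℝ) ^ (k + 1) * ((p : ℝ) ^ k *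
            (p : ℝ) ^ (-(3 / 2) : ℝ))) := by
        rw [pow_succ]
        ring
      rw [c4]
      linarith
    exact le_of_mul_le_mul_left e6 hp0
  · -- odd exponent
    have hev : Even (k + 1) := by
      rcases ho with ⟨r, hr⟩
      exact ⟨r + 1, by omega⟩
    have e3 : ∀ t ∈ univ.erase (0 : ZMod p), 0 ≤ (GG k p t ^ (k + 1)).re := by
      intro t _
      have b1 := h3 k p ho t
      have b2 : GG k p t = ((GG k p t).re : ℂ) := by
        apply Complex.ext
        · simp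
        · simpa using b1
      rw [b2, ← Complex.ofReal_pow, Complex.ofReal_re]
      exact hev.pow_nonneg _
    have e4 := Finset.sum_nonneg e3
    have e6 : (p : ℝ) * ((p : ℝ) ^ k * (1 - (k : ℝ) ^ (k + 1) * (p : ℝ) ^ (-(3 / 2) : ℝ))) ≤
        (p : ℝ) * (Sol k (k + 1) p : ℝ) := by
      rw [e1]
      have c4 : (p : ℝ) * ((p : ℝ) ^ k * (1 - (k : ℝ) ^ (k + 1) * (p : ℝ) ^ (-(3 / 2) : ℝ))) =
          (p : ℝ) ^ (k + 1) - (p : ℝ) * ((k : ℝ) ^ (k + 1) * ((p : ℝ) ^ k *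
            (p : ℝ) ^ (-(3 / 2) : ℝ))) := by
        rw [pow_succ]
        ring
      rw [c4]
      have c5 : 0 ≤ (p : ℝ) * ((k : ℝ) ^ (k + 1) * ((p : ℝ) ^ k *
            (p : ℝ) ^ (-(3 / 2) : ℝ))) := by positivity
      linarith
    exact le_of_mul_le_mul_left e6 hp0

end Pool.Agent.Lead.MK.T.FP
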