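import Pool.Agent.Lead.MK.Stubs

/-! MK-G1 (helper63) -/

set_option autoImplicit false

namespace Pool.Agent.Lead.MK.T.G1

theorem map_sum_eq {p d : ℕ} (ψ : AddChar (ZMod p) ℂ) (f : Fin d → ZMod p) (s : Finset (Fin d)) :
    ψ (∑ i ∈ s, f i) = ∏ i ∈ s, ψ (f i) := by
  classical
  induction s using Finset.induction_on with
  | empty => simp
  | insert a s ha ih => rw [Finset.sum_insert ha, Finset.prod_insert ha, AddChar.map_add_eq_mul, ih]

theorem main : S_G1 := by
  classical
  intro k d p _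
  have h1 : ∀ t : ZMod p, GG k p t ^ d =
      ∑ x : Fin d → ZMod p, ZMod.stdAddChar (t * ∑ i, x i ^ k) := by
    intro t
    unfold GG
    rw [Fintype.sum_pow]
    refine Finset.sum_congr rfl fun x _ => ?_
    rw [Finset.mul_sum]
    exact (map_sum_eq (ZMod.stdAddChar (N := p)) (fun i => t * x i ^ k) Finset.univ).symm
  simp only [h1]
  rw [Finset.sum_comm]
  have h2 : ∀ x : Fin d → ZMod p, ∑ t : ZMod p, (ZMod.stdAddChar (t * ∑ i, x i ^ k) : ℂ) =
      if ∑ i, x i ^ k = 0 then (p : ℂ) else 0 := by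
    intro x
    rw [AddChar.sum_mulShift _ (ZMod.isPrimitive_stdAddChar p)]
    rw [ZMod.card]
    split_ifs <;> simp
  simp only [h2]
  rw [← Finset.sum_filter, Finset.sum_const, nsmul_eq_mul, mul_comm]
  congr 2
  unfold Sol
  rw [Nat.card_eq_fintype_card, Fintype.card_subtype]

end Pool.Agent.Lead.MK.T.G1
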