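import Pool.Agent.Lead.MK.Stubs

/-!
# Project MK: the elementary bound for the exponential sum
-/

set_option autoImplicit false

namespace Pool.Agent.Lead.MK.T.G2

open Finset

section
variable (k p : ℕ) [hp : Fact p.Prime]

/-- `|G(u)|²` as a double sum -/
theorem normsq (u : ZMod p) : ((‖GG k p u‖ ^ 2 : ℝ) : ℂ) =
    ∑ x : ZMod p, ∑ y : ZMod p, ZMod.stdAddChar (u * (x ^ k - y ^ k)) := by
  have h1 : ((‖GG k p u‖ ^ 2 : ℝ) : ℂ) = GG k p u * (starRingEnd ℂ) (GG k p u) := by
    rw [Complex.mul_conj, Complex.normSq_eq_norm_sq]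
  rw [h1]
  unfold GG
  rw [map_sum, Finset.sum_mul_sum]
  refine Finset.sum_congr rfl fun x _ => Finset.sum_congr rfl fun y _ => ?_
  have h2 : (starRingEnd ℂ) (ZMod.stdAddChar (u * y ^ k) : ℂ) =
      ZMod.stdAddChar (-(u * y ^ k)) := by
    rw [AddChar.map_neg_eq_conj]
  rw [h2, ← AddChar.map_add_eq_mul]
  congr 1
  ring

theorem parseval : (∑ u : ZMod p, ‖GG k p u‖ ^ 2 : ℝ) =
    p * ((univ.filter (fun z : ZMod p × ZMod p => z.1 ^ k = z.2 ^ k)).card : ℝ) := by
  have h1 : ((∑ u : ZMod p, ‖GG k p u‖ ^ 2 : ℝ) : ℂ) =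
      ((p * ((univ.filter (fun z : ZMod p × ZMod p => z.1 ^ k = z.2 ^ k)).card : ℝ) : ℝ) : ℂ) := by
    push_cast
    have h2 : ∀ u : ZMod p, ((‖GG k p u‖ : ℂ) ^ 2) =
        ∑ x : ZMod p, ∑ y : ZMod p, ZMod.stdAddChar (u * (x ^ k - y ^ k)) := by
      intro u
      rw [← normsq k p u]
      push_cast
      rfl
    rw [Finset.sum_congr rfl (fun u _ => h2 u), Finset.sum_comm]
    have h3 : ∀ x : ZMod p, (∑ u : ZMod p, ∑ y : ZMod p,
        (ZMod.stdAddChar (u * (x ^ k - y ^ k)) : ℂ)) =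
        ∑ y : ZMod p, if x ^ k = y ^ k then (p : ℂ) else 0 := by
      intro x
      rw [Finset.sum_comm]
      refine Finset.sum_congr rfl fun y _ => ?_
      have := AddChar.sum_mulShift (R := ZMod p) (R' := ℂ) (x ^ k - y ^ k)
        (ψ := ZMod.stdAddChar) (ZMod.isPrimitive_stdAddChar p)
      rw [this]
      simp only [ZMod.card, sub_eq_zero]
      split_ifs <;> simp
    rw [Finset.sum_congr rfl (fun x _ => h3 x)]
    rw [Finset.card_filter, Nat.cast_sum, Finset.mul_sum, ← Finset.univ_product_univ,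
      Finset.sum_product]
    refine Finset.sum_congr rfl fun x _ => Finset.sum_congr rfl fun y _ => ?_
    split_ifs <;> simp
  exact_mod_cast h1

theorem roots_le (hk : 1 ≤ k) (c : ZMod p) :
    (univ.filter (fun y : ZMod p => y ^ k = c)).card ≤ k := by
  classical
  have h1 : (univ.filter (fun y : ZMod p => y ^ k = c)) ⊆ (Polynomial.nthRoots k c).toFinset := by
    intro y hy
    simp only [mem_filter, mem_univ, true_and] at hy
    rw [Multiset.mem_toFinset, Polynomial.mem_nthRoots (by omega)]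
    exact hy
  exact (Finset.card_le_card h1).trans ((Multiset.toFinset_card_le _).trans
    (Polynomial.card_nthRoots k c))

theorem count_le (hk : 1 ≤ k) :
    (univ.filter (fun z : ZMod p × ZMod p => z.1 ^ k = z.2 ^ k)).card ≤ 1 + (p - 1) * k := by
  classical
  have h1 : (univ.filter (fun z : ZMod p × ZMod p => z.1 ^ k = z.2 ^ k)).card =
      ∑ x : ZMod p, (univ.filter (fun y : ZMod p => x ^ k = y ^ k)).card := by
    rw [Finset.card_filter, ← Finset.univ_product_univ, Finset.sum_product]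
    refine Finset.sum_congr rfl fun x _ => ?_
    rw [Finset.card_filter]
  rw [h1, ← Finset.add_sum_erase _ _ (Finset.mem_univ (0 : ZMod p))]
  apply add_le_add
  · have : (univ.filter (fun y : ZMod p => (0 : ZMod p) ^ k = y ^ k)) ⊆ {0} := by
      intro y hy
      simp only [mem_filter, mem_univ, true_and] at hy
      rw [zero_pow (by omega)] at hy
      simpa using (pow_eq_zero_iff (by omega)).1 hy.symm
    simpa using Finset.card_le_card this
  · have h2 : ∀ x ∈ univ.erase (0 : ZMod p),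
        (univ.filter (fun y : ZMod p => x ^ k = y ^ k)).card ≤ k := by
      intro x _
      have := roots_le k p hk (x ^ k)
      simpa only [eq_comm] using this
    refine (Finset.sum_le_card_nsmul _ _ _ h2).trans ?_
    rw [Finset.card_erase_of_mem (Finset.mem_univ _), Finset.card_univ, ZMod.card, smul_eq_mul]

/-- invariance under multiplication by nonzero `k`-th powers -/
theorem inv (t s : ZMod p) (hs : s ≠ 0) : GG k p (t * s ^ k) = GG k p t := by
  unfold GG
  refine Fintype.sum_equiv (Equiv.mulLeft₀ s hs) _ _ fun y => ?_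
  simp only [Equiv.mulLeft₀_apply]
  congr 1
  ring

end

theorem main : S_G2 := by
  intro k p hp hk t ht
  classical
  have hp2 : 2 ≤ p := hp.out.two_le
  have hpR : (2 : ℝ) ≤ p := by exact_mod_cast hp2
  have hkR : (1 : ℝ) ≤ k := by exact_mod_cast hk
  -- the sum over the nonzero s
  have h1 : ((p : ℝ) - 1) * ‖GG k p t‖ ^ 2 =
      ∑ s ∈ univ.erase (0 : ZMod p), ‖GG k p (t * s ^ k)‖ ^ 2 := by
    have h2 : ∀ s ∈ univ.erase (0 : ZMod p), ‖GG k p (t * s ^ k)‖ ^ 2 = ‖GG k p t‖ ^ 2 := by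
      intro s hs
      rw [inv k p t s (Finset.ne_of_mem_erase hs)]
    rw [Finset.sum_congr rfl h2, Finset.sum_const, Finset.card_erase_of_mem (Finset.mem_univ _),
      Finset.card_univ, ZMod.card, nsmul_eq_mul, Nat.cast_sub (by omega), Nat.cast_one]
  have h3 : ∑ s ∈ univ.erase (0 : ZMod p), ‖GG k p (t * s ^ k)‖ ^ 2 ≤
      k * ∑ u ∈ univ.erase (0 : ZMod p), ‖GG k p u‖ ^ 2 := by
    have hm : ∀ s ∈ univ.erase (0 : ZMod p), t * s ^ k ∈ univ.erase (0 : ZMod p) := by
      intro s hs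
      refine Finset.mem_erase.2 ⟨mul_ne_zero ht (pow_ne_zero _ (Finset.ne_of_mem_erase hs)),
        Finset.mem_univ _⟩
    rw [← Finset.sum_fiberwise_of_maps_to hm, Finset.mul_sum]
    apply Finset.sum_le_sum
    intro u hu
    have h4 : ∀ s ∈ (univ.erase (0 : ZMod p)).filter (fun s => t * s ^ k = u),
        ‖GG k p (t * s ^ k)‖ ^ 2 ≤ ‖GG k p u‖ ^ 2 := by
      intro s hs
      rw [(Finset.mem_filter.1 hs).2]
    refine (Finset.sum_le_card_nsmul _ _ _ h4).trans ?_
    rw [nsmul_eq_mul]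
    apply mul_le_mul_of_nonneg_right _ (by positivity)
    have h5 : (univ.erase (0 : ZMod p)).filter (fun s => t * s ^ k = u) ⊆
        univ.filter (fun y : ZMod p => y ^ k = t⁻¹ * u) := by
      intro s hs
      have := (Finset.mem_filter.1 hs).2
      simp only [mem_filter, mem_univ, true_and]
      rw [← this, ← mul_assoc, inv_mul_cancel₀ ht, one_mul]
    exact_mod_cast (Finset.card_le_card h5).trans (roots_le k p hk _)
  have h6 := parseval k p
  rw [← Finset.add_sum_erase _ _ (Finset.mem_univ (0 : ZMod p))] at h6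
  have h7 : ‖GG k p 0‖ ^ 2 = (p : ℝ) ^ 2 := by
    unfold GG
    simp [ZMod.card]
  have h8 : ((univ.filter (fun z : ZMod p × ZMod p => z.1 ^ k = z.2 ^ k)).card : ℝ) ≤
      1 + ((p : ℝ) - 1) * k := by
    have := count_le k p hk
    have h9 : ((univ.filter (fun z : ZMod p × ZMod p => z.1 ^ k = z.2 ^ k)).card : ℝ) ≤
      ((1 + (p - 1) * k : ℕ) : ℝ) := by exact_mod_cast this
    rw [Nat.cast_add, Nat.cast_mul, Nat.cast_sub (by omega)] at h9
    simpa using h9
  rw [h7] at h6
  have h10 : ∑ u ∈ univ.erase (0 : ZMod p), ‖GG k p u‖ ^ 2 ≤ p * (p - 1) * (k - 1) := by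
    nlinarith
  have h11 : ((p : ℝ) - 1) * ‖GG k p t‖ ^ 2 ≤ (p - 1) * (k ^ 2 * p) := by
    rw [h1]
    refine h3.trans ?_
    refine (mul_le_mul_of_nonneg_left h10 (by positivity)).trans ?_
    have : (0:ℝ) ≤ (p - 1) * p * k := by
      apply mul_nonneg (mul_nonneg _ _) <;> linarith
    nlinarith
  have h12 : ‖GG k p t‖ ^ 2 ≤ (k : ℝ) ^ 2 * p := le_of_mul_le_mul_left h11 (by linarith)
  have h13 : (k * √(p : ℝ)) ^ 2 = (k : ℝ) ^ 2 * p := by
    rw [mul_pow, Real.sq_sqrt (by positivity)]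
  rw [← h13] at h12
  exact le_of_sq_le_sq h12 (by positivity)

end Pool.Agent.Lead.MK.T.G2
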