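import Pool.Agent.Lead.MK.Stubs

/-! MK-G3 (helper63) -/

set_option autoImplicit false

namespace Pool.Agent.Lead.MK.T.G3

theorem main : S_G3 := by
  intro k p _ hk t
  rw [← Complex.conj_eq_iff_im]
  unfold GG
  rw [map_sum]
  have h1 : ∀ y : ZMod p, (starRingEnd ℂ) (ZMod.stdAddChar (t * y ^ k)) =
      ZMod.stdAddChar (t * (-y) ^ k) := by
    intro y
    rw [hk.neg_pow, mul_neg, AddChar.map_neg_eq_conj]
  simp only [h1]
  exact Fintype.sum_equiv (Equiv.neg (ZMod p)) _ _ fun y => rfl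

end Pool.Agent.Lead.MK.T.G3
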