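import Pool.Agent.Lead.MK.Stubs

/-!
# Project MK: Hensel
-/

set_option autoImplicit false

namespace Pool.Agent.Lead.MK.T.HEN

open Polynomial

section
variable (k p : ℕ) [hp : Fact p.Prime]

theorem nilp (f : ZMod (p ^ k) →+* ZMod p) (y : ZMod (p ^ k)) (hy : f y = 0) : y ^ k = 0 := by
  haveI : NeZero (p ^ k) := ⟨pow_ne_zero _ hp.out.ne_zero⟩
  have h1 : y = ((y.val : ℕ) : ZMod (p ^ k)) := (ZMod.natCast_zmod_val y).symm
  have h2 : ((y.val : ℕ) : ZMod p) = 0 := by rw [← map_natCast f, ← h1, hy]
  rw [ZMod.natCast_eq_zero_iff] at h2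
  obtain ⟨m, hm⟩ := h2
  rw [h1, hm]
  push_cast
  rw [mul_pow]
  have h3 : ((p : ZMod (p ^ k)) ^ k) = 0 := by
    have := ZMod.natCast_self (p ^ k)
    push_cast at this
    exact this
  rw [h3, zero_mul]

theorem unit (f : ZMod (p ^ k) →+* ZMod p) (y : ZMod (p ^ k)) (hy : f y ≠ 0) : IsUnit y := by
  haveI : NeZero (p ^ k) := ⟨pow_ne_zero _ hp.out.ne_zero⟩
  have h1 : y = ((y.val : ℕ) : ZMod (p ^ k)) := (ZMod.natCast_zmod_val y).symm
  have h2 : ¬ ((y.val : ℕ) : ZMod p) = 0 := by rw [← map_natCast f, ← h1]; exact hy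
  rw [ZMod.natCast_eq_zero_iff] at h2
  rw [h1, ZMod.isUnit_iff_coprime]
  exact Nat.Coprime.pow_right k ((Nat.Prime.coprime_iff_not_dvd hp.out).2 h2).symm

theorem root (hk : 1 ≤ k) (hpk : ¬ p ∣ k) (f : ZMod (p ^ k) →+* ZMod p) (c : ZMod p)
    (hc : c ≠ 0) (a : ZMod (p ^ k)) (ha : f a = c ^ k) : ∃ z, f z = c ∧ z ^ k = a := by
  obtain ⟨x0, hx0⟩ := ZMod.ringHom_surjective f c
  have h1 : IsNilpotent (aeval x0 (X ^ k - C a)) := by
    refine ⟨k, nilp k p f _ ?_⟩
    simp [hx0, ha]
  have h2 : IsUnit (aeval x0 (derivative (X ^ k - C a))) := by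
    apply unit k p f
    simp only [derivative_sub, derivative_X_pow, derivative_C, sub_zero, map_mul, map_pow,
      aeval_X, hx0]
    have h3 : (k : ZMod p) ≠ 0 := by
      rw [Ne, ZMod.natCast_eq_zero_iff]; exact hpk
    simp only [map_natCast]
    exact mul_ne_zero h3 (pow_ne_zero _ hc)
  obtain ⟨z, ⟨hz1, hz2⟩, -⟩ := existsUnique_nilpotent_sub_and_aeval_eq_zero h1 h2
  refine ⟨z, ?_, ?_⟩
  · have h4 : IsNilpotent (f (x0 - z)) := hz1.map f
    have h5 : f (x0 - z) = 0 := h4.eq_zero
    rw [map_sub, hx0, sub_eq_zero] at h5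
    exact h5.symm
  · have : z ^ k - a = 0 := by simpa using hz2
    exact sub_eq_zero.1 this

open Classical in
theorem fib_card (hk : 1 ≤ k) (f : ZMod (p ^ k) →+* ZMod p) [Fintype (ZMod (p ^ k))]
    (c : ZMod p) :
    (Finset.univ.filter (fun r : ZMod (p ^ k) => f r = c)).card = p ^ (k - 1) := by
  haveI : NeZero (p ^ k) := ⟨pow_ne_zero _ hp.out.ne_zero⟩
  have hs := ZMod.ringHom_surjective f
  have h1 : (Finset.univ : Finset (ZMod (p ^ k))).card =
      ∑ c : ZMod p, (Finset.univ.filter (fun r : ZMod (p ^ k) => f r = c)).card :=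
    Finset.card_eq_sum_card_fiberwise (fun _ _ => by simp)
  have h2 : ∀ b : ZMod p, (Finset.univ.filter (fun r : ZMod (p ^ k) => f r = b)).card =
      (Finset.univ.filter (fun r : ZMod (p ^ k) => f r = c)).card := by
    intro b
    have := AddMonoidHom.card_fiber_eq_of_mem_range f.toAddMonoidHom (x := b) (y := c)
      (by obtain ⟨z, hz⟩ := hs b; exact ⟨z, hz⟩) (by obtain ⟨z, hz⟩ := hs c; exact ⟨z, hz⟩)
    convert this using 2
    all_goals (ext r; simp)
  rw [Finset.sum_congr rfl (fun b _ => h2 b), Finset.sum_const, Finset.card_univ,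
    Finset.card_univ, ZMod.card, smul_eq_mul] at h1
  have h3 : Fintype.card (ZMod p) = p := ZMod.card _
  rw [h3] at h1
  have h4 : p ^ k = p * p ^ (k - 1) := by
    rw [← pow_succ', Nat.sub_add_cancel hk]
  exact (Nat.eq_of_mul_eq_mul_left hp.out.pos (h4.symm.trans h1)).symm

end

open Classical in
theorem main : S_HEN := by
  intro k d p hk hd hpp hpk
  haveI : Fact p.Prime := ⟨hpp⟩
  haveI : NeZero (p ^ k) := ⟨pow_ne_zero _ hpp.ne_zero⟩
  set f : ZMod (p ^ k) →+* ZMod p := ZMod.castHom (dvd_pow_self p (by omega)) (ZMod p) with hf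
  have hSol : Sol k d (p ^ k) =
      (Finset.univ.filter (fun x : Fin d → ZMod (p ^ k) => ∑ i, x i ^ k = 0)).card := by
    unfold Sol
    rw [Nat.card_eq_fintype_card, Fintype.card_subtype]
  have hPrim : Prim k d p =
      (Finset.univ.filter (fun x : Fin d → ZMod p => x ≠ 0 ∧ ∑ i, x i ^ k = 0)).card := by
    unfold Prim
    rw [Nat.card_eq_fintype_card, Fintype.card_subtype]
  rw [hSol, hPrim]
  set S := Finset.univ.filter (fun x : Fin d → ZMod (p ^ k) => ∑ i, x i ^ k = 0) with hS
  set T' := Finset.univ.filter (fun x : Fin d → ZMod p => x ≠ 0 ∧ ∑ i, x i ^ k = 0) with hT'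
  have h0 : (0 : Fin d → ZMod p) ∉ T' := by simp [hT']
  have hmaps : ∀ x ∈ S, (fun i => f (x i)) ∈ insert (0 : Fin d → ZMod p) T' := by
    intro x hx
    have hx' : ∑ i, x i ^ k = 0 := by simpa [hS] using hx
    rw [Finset.mem_insert]
    by_cases h : (fun i => f (x i)) = 0
    · exact Or.inl h
    · right
      simp only [hT', Finset.mem_filter, Finset.mem_univ, true_and]
      refine ⟨h, ?_⟩
      have := congrArg f hx'
      simpa [map_sum, map_pow] using this
  have hcard := Finset.card_eq_sum_card_fiberwise (f := fun (x : Fin d → ZMod (p ^ k)) =>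
    (fun i => f (x i) : Fin d → ZMod p)) (s := S) (t := insert (0 : Fin d → ZMod p) T')
    (fun x hx => hmaps x hx)
  rw [hcard, Finset.sum_insert h0]
  apply add_le_add
  · -- the fiber above zero
    have hsub : Fintype.piFinset (fun _ : Fin d =>
        Finset.univ.filter (fun r : ZMod (p ^ k) => f r = 0)) ⊆
        S.filter (fun x => (fun i => f (x i)) = (0 : Fin d → ZMod p)) := by
      intro x hx
      have hx' : ∀ i, f (x i) = 0 := by
        intro i
        have := Fintype.mem_piFinset.1 hx i
        simpa using this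
      rw [Finset.mem_filter]
      refine ⟨?_, funext fun i => hx' i⟩
      simp only [hS, Finset.mem_filter, Finset.mem_univ, true_and]
      exact Finset.sum_eq_zero (fun i _ => nilp k p f _ (hx' i))
    refine le_trans (le_of_eq ?_) (Finset.card_le_card hsub)
    rw [Fintype.card_piFinset]
    rw [Finset.prod_congr rfl (fun i _ => fib_card k p hk f 0)]
    rw [Finset.prod_const, Finset.card_univ, Fintype.card_fin, ← pow_mul]
  · rw [← smul_eq_mul, ← Finset.sum_const]
    apply Finset.sum_le_sum
    intro v hv
    have hv' : v ≠ 0 ∧ ∑ i, v i ^ k = 0 := by simpa [hT'] using hv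
    obtain ⟨i, hi⟩ : ∃ i, v i ≠ 0 := by
      by_contra h
      push Not at h
      exact hv'.1 (funext h)
    -- the sets of free coordinates
    set A : Fin d → Finset (ZMod (p ^ k)) := fun j =>
      if j = i then {0} else Finset.univ.filter (fun r : ZMod (p ^ k) => f r = v j) with hA
    have hAc : (Fintype.piFinset A).card = p ^ ((k - 1) * (d - 1)) := by
      rw [Fintype.card_piFinset, ← Finset.mul_prod_erase _ _ (Finset.mem_univ i)]
      have h1 : (A i).card = 1 := by simp [hA]
      have h2 : ∀ j ∈ Finset.univ.erase i, (A j).card = p ^ (k - 1) := by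
        intro j hj
        have : j ≠ i := Finset.ne_of_mem_erase hj
        simp only [hA, if_neg this]
        exact fib_card k p hk f (v j)
      rw [h1, one_mul, Finset.prod_congr rfl h2, Finset.prod_const,
        Finset.card_erase_of_mem (Finset.mem_univ i), Finset.card_univ, Fintype.card_fin,
        ← pow_mul]
    have hex : ∀ y ∈ Fintype.piFinset A, ∃ z, f z = v i ∧
        z ^ k = - ∑ j ∈ Finset.univ.erase i, y j ^ k := by
      intro y hy
      apply root k p hk hpk f (v i) hi
      rw [map_neg, map_sum]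
      have h1 : ∀ j ∈ Finset.univ.erase i, f (y j ^ k) = v j ^ k := by
        intro j hj
        have hne : j ≠ i := Finset.ne_of_mem_erase hj
        have := Fintype.mem_piFinset.1 hy j
        simp only [hA, if_neg hne, Finset.mem_filter, Finset.mem_univ, true_and] at this
        rw [map_pow, this]
      rw [Finset.sum_congr rfl h1]
      have h2 := hv'.2
      rw [← Finset.add_sum_erase _ _ (Finset.mem_univ i)] at h2
      exact (eq_neg_of_add_eq_zero_left h2).symm
    choose! z hz using hex
    rw [← hAc]
    apply Finset.card_le_card_of_injOn (fun y => Function.update y i (z y))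
    · intro y hy
      have hy' : y ∈ Fintype.piFinset A := by simpa using hy
      obtain ⟨hz1, hz2⟩ := hz y hy'
      have hgoal : Function.update y i (z y) ∈ S.filter (fun x => (fun i => f (x i)) = v) := by
        rw [Finset.mem_filter]
        constructor
        · simp only [hS, Finset.mem_filter, Finset.mem_univ, true_and]
          rw [← Finset.add_sum_erase _ _ (Finset.mem_univ i)]
          have h1 : ∀ j ∈ Finset.univ.erase i, Function.update y i (z y) j ^ k = y j ^ k := by
            intro j hj
            rw [Function.update_of_ne (Finset.ne_of_mem_erase hj)]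
          rw [Finset.sum_congr rfl h1, Function.update_self, hz2, neg_add_cancel]
        · funext j
          by_cases hj : j = i
          · subst hj
            rw [Function.update_self]
            exact hz1
          · rw [Function.update_of_ne hj]
            have := Fintype.mem_piFinset.1 hy' j
            simpa only [hA, if_neg hj, Finset.mem_filter, Finset.mem_univ, true_and] using this
      exact hgoal
    · intro y hy y' hy' h
      have hy1 : y ∈ Fintype.piFinset A := by simpa using hy
      have hy2 : y' ∈ Fintype.piFinset A := by simpa using hy'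
      funext j
      by_cases hj : j = i
      · have h1 := Fintype.mem_piFinset.1 hy1 j
        have h2 := Fintype.mem_piFinset.1 hy2 j
        simp only [hA, if_pos hj, Finset.mem_singleton] at h1 h2
        rw [h1, h2]
      · have := congrFun h j
        simpa [Function.update_of_ne hj] using this

end Pool.Agent.Lead.MK.T.HEN
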