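import Pool.Agent.Lead.MK.T.MER
import Mathlib.Analysis.PSeries

/-! MK-LOWP (helper63) -/

set_option autoImplicit false

namespace Pool.Agent.Lead.MK.T.LOWP

theorem exp_bd {x : ℝ} (h0 : 0 ≤ x) (h1 : x ≤ 1 / 2) : Real.exp (-(2 * x)) ≤ 1 - x := by
  rw [Real.exp_neg, inv_le_comm₀ (Real.exp_pos _) (by linarith)]
  have h2 : 2 * x + 1 ≤ Real.exp (2 * x) := Real.add_one_le_exp _
  refine le_trans ?_ h2
  rw [inv_le_iff_one_le_mul₀ (by linarith)]
  nlinarith

theorem main : S_LOWP := by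
  intro C K hC
  obtain ⟨c, hc, hM⟩ := MER.main
  set p₀ : ℕ := max K (max ⌈2 * C⌉₊ 2) with hp₀
  have hK : K ≤ p₀ := le_max_left _ _
  have h2 : 2 ≤ p₀ := le_trans (le_max_right _ _) (le_max_right _ _)
  have hC2 : 2 * C ≤ p₀ := le_trans (Nat.le_ceil _) (by
    exact_mod_cast le_trans (le_max_left _ _) (le_max_right _ _))
  set x : ℕ → ℝ := fun p => C * (p : ℝ) ^ (-(3 / 2) : ℝ) with hx
  have hx0 : ∀ p, 0 ≤ x p := fun p => mul_nonneg hC (Real.rpow_nonneg (Nat.cast_nonneg _) _)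
  have hx1 : ∀ p, p₀ < p → x p ≤ 1 / 2 := by
    intro p hp
    have hp1 : (p₀ : ℝ) < p := by exact_mod_cast hp
    have h20 : (2 : ℝ) ≤ p₀ := by exact_mod_cast h2
    have h3 : (p : ℝ) ^ (-(3 / 2) : ℝ) ≤ (p : ℝ) ^ (-1 : ℝ) :=
      Real.rpow_le_rpow_of_exponent_le (by linarith) (by norm_num)
    have h4 : x p ≤ C * (p : ℝ) ^ (-1 : ℝ) := mul_le_mul_of_nonneg_left h3 hC
    refine h4.trans ?_
    rw [Real.rpow_neg_one, ← div_eq_mul_inv, div_le_div_iff₀ (by linarith) (by norm_num)]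
    linarith
  have hsum : Summable x := by
    have : Summable (fun n : ℕ => (n : ℝ) ^ (-(3 / 2) : ℝ)) :=
      Real.summable_nat_rpow.2 (by norm_num)
    exact this.mul_left C
  have hlow : ∀ p, p.Prime → p₀ < p →
      (1 + 1 / (p : ℝ)) * Real.exp (-(2 * x p)) ≤ 1 + 1 / (p : ℝ) - x p := by
    intro p hp hpp
    have h5 := exp_bd (hx0 p) (hx1 p hpp)
    have h6 : (0 : ℝ) ≤ 1 / (p : ℝ) := by positivity
    have h7 := hx0 p
    calc _ ≤ (1 + 1 / (p : ℝ)) * (1 - x p) := mul_le_mul_of_nonneg_left h5 (by linarith)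
      _ ≤ _ := by nlinarith
  set A : ℝ := ∏ p ∈ (Finset.range (p₀ + 1)).filter Nat.Prime, (1 + 1 / (p : ℝ)) with hA
  have hA0 : 0 < A := Finset.prod_pos fun p _ => by positivity
  set E : ℝ := Real.exp (-(2 * ∑' n, x n)) with hE
  have hE0 : 0 < E := Real.exp_pos _
  refine ⟨c * E / A, p₀, by positivity, hK, ?_, ?_⟩
  · intro p hp hpp
    refine lt_of_lt_of_le ?_ (hlow p hp hpp)
    positivity
  · intro y hy
    have h8 := hM y (by omega)
    have h9 : ∏ p ∈ (Finset.range (y + 1)).filter Nat.Prime, (1 + 1 / (p : ℝ)) =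
        A * ∏ p ∈ (Finset.Ioc p₀ y).filter Nat.Prime, (1 + 1 / (p : ℝ)) := by
      rw [hA, ← Finset.prod_union]
      · refine Finset.prod_congr ?_ fun _ _ => rfl
        ext q
        simp only [Finset.mem_filter, Finset.mem_range, Finset.mem_union, Finset.mem_Ioc]
        constructor
        · rintro ⟨h, hq⟩
          by_cases hqp : q ≤ p₀
          · exact Or.inl ⟨by omega, hq⟩
          · exact Or.inr ⟨by omega, hq⟩
        · rintro (⟨h, hq⟩ | ⟨h, hq⟩)
          · exact ⟨by omega, hq⟩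
          · exact ⟨by omega, hq⟩
      · rw [Finset.disjoint_left]
        intro q h1 h2
        simp only [Finset.mem_filter, Finset.mem_range, Finset.mem_Ioc] at h1 h2
        omega
    have h10 : E ≤ ∏ p ∈ (Finset.Ioc p₀ y).filter Nat.Prime, Real.exp (-(2 * x p)) := by
      rw [← Real.exp_sum, hE]
      refine Real.exp_le_exp.2 ?_
      rw [Finset.sum_neg_distrib, ← Finset.mul_sum]
      have := hsum.sum_le_tsum ((Finset.Ioc p₀ y).filter Nat.Prime) (fun i _ => hx0 i)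
      linarith
    have h11 : ∏ p ∈ (Finset.Ioc p₀ y).filter Nat.Prime,
        ((1 + 1 / (p : ℝ)) * Real.exp (-(2 * x p))) ≤
        ∏ p ∈ (Finset.Ioc p₀ y).filter Nat.Prime, (1 + 1 / (p : ℝ) - x p) := by
      refine Finset.prod_le_prod (fun p _ => by positivity) fun p hp => ?_
      rw [Finset.mem_filter, Finset.mem_Ioc] at hp
      exact hlow p hp.2 hp.1.1
    refine le_trans ?_ h11
    rw [Finset.prod_mul_distrib]
    rw [h9] at h8
    have h12 : c * Real.log y / A ≤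
        ∏ p ∈ (Finset.Ioc p₀ y).filter Nat.Prime, (1 + 1 / (p : ℝ)) := by
      rw [div_le_iff₀ hA0, mul_comm _ A]
      exact h8
    calc c * E / A * Real.log y = (c * Real.log y / A) * E := by ring
      _ ≤ _ := mul_le_mul h12 h10 hE0.le (Finset.prod_nonneg fun p _ => by positivity)

end Pool.Agent.Lead.MK.T.LOWP
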