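import Pool.Agent.Lead.MK.Stubs
import Mathlib.NumberTheory.EulerProduct.Basic
import Mathlib.NumberTheory.Harmonic.Bounds

/-! MK-MER (helper63) -/

set_option autoImplicit false

namespace Pool.Agent.Lead.MK.T.MER

/-- `n ↦ 1 / n` as a monoid homomorphism -/
noncomputable def F : ℕ →* ℝ where
  toFun n := (n : ℝ)⁻¹
  map_one' := by simp
  map_mul' a b := by push_cast; rw [mul_inv]

theorem F_apply (n : ℕ) : F n = (n : ℝ)⁻¹ := rfl

theorem euler (y : ℕ) : Real.log y ≤
    ∏ p ∈ (Finset.range (y + 1)).filter Nat.Prime, (1 - (p : ℝ)⁻¹)⁻¹ := by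
  have h := (EulerProduct.summable_and_hasSum_smoothNumbers_prod_primesBelow_geometric
    (f := F) (fun {p} hp => by
      rw [F_apply, norm_inv, Real.norm_natCast]
      exact inv_lt_one_of_one_lt₀ (by exact_mod_cast hp.one_lt)) (y + 1)).2
  have h' : HasSum ((Nat.smoothNumbers (y + 1)).indicator (fun n : ℕ => F n))
      (∏ p ∈ (y + 1).primesBelow, (1 - F p)⁻¹) :=
    hasSum_subtype_iff_indicator.1 h
  have h2 := sum_le_hasSum (Finset.Icc 1 y) (fun n _ => Set.indicator_nonneg
    (fun m _ => by rw [F_apply]; positivity) n) h'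
  have h3 : ∑ n ∈ Finset.Icc 1 y, (Nat.smoothNumbers (y + 1)).indicator (fun n : ℕ => F n) n =
      ∑ n ∈ Finset.Icc 1 y, (n : ℝ)⁻¹ := by
    refine Finset.sum_congr rfl fun n hn => ?_
    rw [Finset.mem_Icc] at hn
    rw [Set.indicator_of_mem (Nat.mem_smoothNumbers_of_lt (by omega) (by omega)), F_apply]
  rw [h3] at h2
  refine le_trans ?_ h2
  rcases Nat.eq_zero_or_pos y with rfl | hy
  · simp
  have h4 := log_add_one_le_harmonic y
  have h5 : Real.log y ≤ Real.log (y + 1 : ℕ) :=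
    Real.log_le_log (by exact_mod_cast hy) (by push_cast; linarith)
  refine le_trans h5 (le_trans h4 (le_of_eq ?_))
  rw [harmonic_eq_sum_Icc]
  push_cast
  rfl

theorem sq (y : ℕ) (hy : 1 ≤ y) : ((y : ℝ) + 1) / (2 * y) ≤
    ∏ p ∈ (Finset.range (y + 1)).filter Nat.Prime, (1 - ((p : ℝ)⁻¹) ^ 2) := by
  induction y, hy using Nat.le_induction with
  | base =>
    have : (Finset.range (1 + 1)).filter Nat.Prime = ∅ := by decide
    rw [this]; norm_num
  | succ y hy ih =>
    have hy0 : (1 : ℝ) ≤ y := by exact_mod_cast hy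
    rw [Finset.range_add_one, Finset.filter_insert]
    have hpos : (0 : ℝ) ≤ 1 - (((y : ℝ) + 1)⁻¹) ^ 2 := by
      have : (((y : ℝ) + 1)⁻¹) ≤ 1 := inv_le_one_of_one_le₀ (by linarith)
      have h0 : 0 ≤ (((y : ℝ) + 1)⁻¹) := by positivity
      nlinarith
    split_ifs with hp
    · rw [Finset.prod_insert (by simp)]
      refine le_trans (le_of_eq ?_) (mul_le_mul_of_nonneg_left ih ?_)
      · push_cast
        field_simp
        ring
      · push_cast
        exact hpos
    · refine le_trans ?_ ih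
      push_cast
      rw [div_le_div_iff₀ (by positivity) (by positivity)]
      nlinarith

theorem main : S_MER := by
  refine ⟨1 / 2, by norm_num, fun y hy => ?_⟩
  have h1 := euler y
  have h2 := sq y (by omega)
  have hy0 : (2 : ℝ) ≤ y := by exact_mod_cast hy
  have h3 : (1 : ℝ) / 2 ≤ ((y : ℝ) + 1) / (2 * y) := by
    rw [div_le_div_iff₀ (by norm_num) (by positivity)]
    linarith
  have h4 : 0 ≤ Real.log y := Real.log_nonneg (by linarith)
  have h5 : ∏ p ∈ (Finset.range (y + 1)).filter Nat.Prime, (1 + 1 / (p : ℝ)) =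
      (∏ p ∈ (Finset.range (y + 1)).filter Nat.Prime, (1 - ((p : ℝ)⁻¹) ^ 2)) *
      ∏ p ∈ (Finset.range (y + 1)).filter Nat.Prime, (1 - (p : ℝ)⁻¹)⁻¹ := by
    rw [← Finset.prod_mul_distrib]
    refine Finset.prod_congr rfl fun p hp => ?_
    have hp1 : (1 : ℝ) < p := by exact_mod_cast (Finset.mem_filter.1 hp).2.one_lt
    have hne : (1 - (p : ℝ)⁻¹) ≠ 0 := by
      have := inv_lt_one_of_one_lt₀ hp1
      linarith
    rw [eq_mul_inv_iff_mul_eq₀ hne, one_div]
    ring
  rw [h5]
  exact mul_le_mul (h3.trans h2) h1 h4 (le_trans (by norm_num) (h3.trans h2))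

end Pool.Agent.Lead.MK.T.MER
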