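import Pool.Agent.Lead.MK.T.CRT

/-! MK-PRD (helper63) -/

set_option autoImplicit false

namespace Pool.Agent.Lead.MK.T.PRD

theorem sol_one (k d : ℕ) : Sol k d 1 = 1 := by
  unfold Sol
  rw [Nat.card_eq_one_iff_unique]
  refine ⟨⟨fun a b => ?_⟩, ⟨⟨0, ?_⟩⟩⟩
  · apply Subtype.ext
    funext i
    exact Subsingleton.elim (α := ZMod 1) _ _
  · exact Subsingleton.elim (α := ZMod 1) _ _

theorem main : S_PRD := by
  classical
  intro k d s
  induction s using Finset.induction_on with
  | empty =>
    intro _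
    rw [Finset.prod_empty, Finset.prod_empty, one_pow, sol_one]
  | insert p s hp ih =>
    intro h
    have hs : ∀ q ∈ s, q.Prime := fun q hq => h q (Finset.mem_insert_of_mem hq)
    have hpp : p.Prime := h p (Finset.mem_insert_self _ _)
    rw [Finset.prod_insert hp, Finset.prod_insert hp, mul_pow, CRT.main k d _ _
      (Nat.pos_of_ne_zero (pow_ne_zero _ hpp.ne_zero))
      (Nat.pos_of_ne_zero (pow_ne_zero _ (Finset.prod_ne_zero_iff.2 fun q hq => (hs q hq).ne_zero))),
      ih hs]
    refine Nat.Coprime.pow _ _ (Nat.Coprime.prod_right fun q hq => ?_)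
    exact (Nat.coprime_primes hpp (hs q hq)).2 fun h => hp (h ▸ hq)

end Pool.Agent.Lead.MK.T.PRD
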