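import Pool.Agent.Lead.MK.Stubs3
import Pool.Agent.Lead.MK.T.G2

/-!
# Project MK: the number of zeros of a sum of four cubes
-/

set_option autoImplicit false

namespace Pool.Agent.Lead.MK.T.CUB

open Finset

/-- solutions and nonzero solutions -/
theorem sol_prim (k d p : ℕ) [hp : Fact p.Prime] (hk : 1 ≤ k) : Sol k d p = Prim k d p + 1 := by
  classical
  unfold Sol Prim
  rw [Nat.card_eq_fintype_card, Nat.card_eq_fintype_card, Fintype.card_subtype,
    Fintype.card_subtype]
  have h1 : (univ.filter fun x : Fin d → ZMod p => ∑ i, x i ^ k = 0) =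
      insert 0 (univ.filter fun x : Fin d → ZMod p => x ≠ 0 ∧ ∑ i, x i ^ k = 0) := by
    ext x
    simp only [mem_filter, mem_univ, true_and, mem_insert]
    constructor
    · intro h
      by_cases hx : x = 0
      · exact Or.inl hx
      · exact Or.inr ⟨hx, h⟩
    · rintro (h | h)
      · subst h
        simp [zero_pow (show k ≠ 0 by omega)]
      · exact h.2
  rw [h1, Finset.card_insert_of_notMem (by simp)]

section
variable (p : ℕ) [hp : Fact p.Prime]

noncomputable def g (t : ZMod p) : ℝ := (GG 3 p t).re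

theorem GG_eq (h3 : S_G3) (t : ZMod p) : GG 3 p t = (g p t : ℂ) := by
  apply Complex.ext
  · simp [g]
  · simpa using h3 3 p (by decide) t

theorem g_inv (t s : ZMod p) (hs : s ≠ 0) : g p (t * s ^ 3) = g p t := by
  unfold g
  rw [G2.inv 3 p t s hs]

theorem g_zero : g p 0 = p := by
  unfold g GG
  simp [ZMod.card]

theorem sum_g : ∑ t : ZMod p, g p t = p := by
  have h1 : ∑ t : ZMod p, GG 3 p t = (p : ℂ) := by
    unfold GG
    rw [Finset.sum_comm]
    have h2 : ∀ y : ZMod p, ∑ t : ZMod p, (ZMod.stdAddChar (t * y ^ 3) : ℂ) =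
        if y = 0 then (p : ℂ) else 0 := by
      intro y
      have := AddChar.sum_mulShift (R := ZMod p) (R' := ℂ) (y ^ 3)
        (ψ := ZMod.stdAddChar) (ZMod.isPrimitive_stdAddChar p)
      rw [this]
      simp only [ZMod.card, pow_eq_zero_iff (three_ne_zero)]
      split_ifs <;> simp
    rw [Finset.sum_congr rfl fun y _ => h2 y]
    simp
  have h2 := congrArg Complex.re h1
  rw [Complex.re_sum] at h2
  simpa [g] using h2

theorem orbit (H : ℝ → ℝ) (γ : (ZMod p)ˣ) (hγ : ∀ u : (ZMod p)ˣ, u ∈ Subgroup.zpowers γ) :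
    ((p : ℝ) - 1) * (H (g p 1) + H (g p γ) + H (g p ((γ : ZMod p) ^ 2))) =
      3 * (∑ t, H (g p t) - H (g p 0)) := by
  classical
  have hp2 : 2 ≤ p := hp.out.two_le
  set T : ZMod p → ℝ := fun t => H (g p t) + H (g p (t * γ)) + H (g p (t * (γ : ZMod p) ^ 2)) with hTd
  have hT : ∀ t, T (t * γ) = T t := by
    intro t
    simp only [hTd]
    rw [show t * (γ : ZMod p) * γ = t * (γ : ZMod p) ^ 2 by ring,
      show t * (γ : ZMod p) * (γ : ZMod p) ^ 2 = t * (γ : ZMod p) ^ 3 by ring,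
      g_inv p t γ γ.ne_zero]
    ring
  have hTn : ∀ n : ℕ, T (((γ ^ n : (ZMod p)ˣ)) : ZMod p) = T 1 := by
    intro n
    induction n with
    | zero => simp
    | succ n ih =>
      rw [pow_succ, Units.val_mul, hT, ih]
  have hTu : ∀ t ∈ univ.erase (0 : ZMod p), T t = T 1 := by
    intro t ht
    have ht0 := Finset.ne_of_mem_erase ht
    have h1 := hγ (Units.mk0 t ht0)
    rw [← mem_powers_iff_mem_zpowers] at h1
    obtain ⟨n, hn⟩ := h1
    have h2 := hTn n
    rw [show γ ^ n = Units.mk0 t ht0 from hn] at h2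
    simpa using h2
  have hsum : ∑ t, T t = 3 * ∑ t, H (g p t) := by
    simp only [hTd]
    rw [Finset.sum_add_distrib, Finset.sum_add_distrib]
    have e1 : ∑ t : ZMod p, H (g p (t * γ)) = ∑ t, H (g p t) :=
      Equiv.sum_comp (Equiv.mulRight₀ (γ : ZMod p) γ.ne_zero) (fun t => H (g p t))
    have e2 : ∑ t : ZMod p, H (g p (t * (γ : ZMod p) ^ 2)) = ∑ t, H (g p t) :=
      Equiv.sum_comp (Equiv.mulRight₀ ((γ : ZMod p) ^ 2) (pow_ne_zero _ γ.ne_zero))
        (fun t => H (g p t))
    rw [e1, e2]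
    ring
  have hsum2 : ∑ t, T t = T 0 + ((p : ℝ) - 1) * T 1 := by
    rw [← Finset.add_sum_erase _ _ (Finset.mem_univ (0 : ZMod p)), Finset.sum_congr rfl hTu,
      Finset.sum_const, Finset.card_erase_of_mem (Finset.mem_univ _), Finset.card_univ, ZMod.card,
      nsmul_eq_mul, Nat.cast_sub (by omega), Nat.cast_one]
  have hT0 : T 0 = 3 * H (g p 0) := by
    simp only [hTd, zero_mul]
    ring
  have hT1 : T 1 = H (g p 1) + H (g p γ) + H (g p ((γ : ZMod p) ^ 2)) := by
    simp only [hTd, one_mul]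
  rw [← hT1]
  linarith

/-- pairs with equal cubes -/
theorem count_ge (hp3 : p % 3 = 1) :
    1 + 3 * (p - 1) ≤ (univ.filter (fun z : ZMod p × ZMod p => z.1 ^ 3 = z.2 ^ 3)).card := by
  classical
  have hp2 : 2 ≤ p := hp.out.two_le
  obtain ⟨w, hw⟩ : ∃ w : (ZMod p)ˣ, orderOf w = 3 := by
    haveI : Fact (Nat.Prime 3) := ⟨Nat.prime_three⟩
    apply exists_prime_orderOf_dvd_card' 3
    rw [Nat.card_eq_fintype_card, ZMod.card_units_eq_totient, Nat.totient_prime hp.out]
    omega
  have hw3 : (w : ZMod p) ^ 3 = 1 := by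
    have := pow_orderOf_eq_one w
    rw [hw] at this
    rw [← Units.val_pow_eq_pow_val, this, Units.val_one]
  have hw1 : (w : ZMod p) ≠ 1 := by
    intro h
    have h2 : w = 1 := Units.ext (by simpa using h)
    rw [h2, orderOf_one] at hw
    omega
  have hw2 : (w : ZMod p) ^ 2 ≠ 1 := by
    intro h
    apply hw1
    have : (w : ZMod p) = (w : ZMod p) ^ 3 := by
      rw [show (w : ZMod p) ^ 3 = (w : ZMod p) ^ 2 * w by ring, h, one_mul]
    rw [this, hw3]
  have hw21 : (w : ZMod p) ^ 2 ≠ w := by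
    intro h
    apply hw1
    have h1 : (w : ZMod p) * (w - 1) = 0 := by linear_combination h
    rcases mul_eq_zero.1 h1 with h2 | h2
    · exact absurd h2 w.ne_zero
    · exact sub_eq_zero.1 h2
  have h1 : (univ.filter (fun z : ZMod p × ZMod p => z.1 ^ 3 = z.2 ^ 3)).card =
      ∑ x : ZMod p, (univ.filter (fun y : ZMod p => x ^ 3 = y ^ 3)).card := by
    rw [Finset.card_filter, ← Finset.univ_product_univ, Finset.sum_product]
    refine Finset.sum_congr rfl fun x _ => ?_
    rw [Finset.card_filter]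
  rw [h1, ← Finset.add_sum_erase _ _ (Finset.mem_univ (0 : ZMod p))]
  apply add_le_add
  · rw [Nat.succ_le_iff, Finset.card_pos]
    exact ⟨0, by simp⟩
  · have h2 : ∀ x ∈ univ.erase (0 : ZMod p),
        3 ≤ (univ.filter (fun y : ZMod p => x ^ 3 = y ^ 3)).card := by
      intro x hx
      have hx0 := Finset.ne_of_mem_erase hx
      have h3 : ({x, x * w, x * (w : ZMod p) ^ 2} : Finset (ZMod p)) ⊆
          univ.filter (fun y : ZMod p => x ^ 3 = y ^ 3) := by
        intro y hy
        simp only [mem_insert, mem_singleton] at hy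
        simp only [mem_filter, mem_univ, true_and]
        rcases hy with rfl | rfl | rfl
        · rfl
        · rw [mul_pow, hw3, mul_one]
        · rw [mul_pow, ← pow_mul, show 2 * 3 = 3 * 2 by norm_num, pow_mul, hw3, one_pow, mul_one]
      have h4 : ({x, x * w, x * (w : ZMod p) ^ 2} : Finset (ZMod p)).card = 3 := by
        rw [Finset.card_eq_three]
        refine ⟨x, x * w, x * (w : ZMod p) ^ 2, ?_, ?_, ?_, rfl⟩
        · intro h
          exact hw1 (mul_left_cancel₀ hx0 (by rw [← h, mul_one]))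
        · intro h
          exact hw2 (mul_left_cancel₀ hx0 (by rw [← h, mul_one]))
        · intro h
          exact hw21 (mul_left_cancel₀ hx0 h).symm
      exact h4.symm.le.trans (Finset.card_le_card h3)
    have h5 := Finset.card_nsmul_le_sum _ _ _ h2
    rw [Finset.card_erase_of_mem (Finset.mem_univ _), Finset.card_univ, ZMod.card,
      smul_eq_mul] at h5
    linarith

end

theorem main (h1 : S_G1) (h3 : S_G3) : S_CUB := by
  intro p hpp hp3
  haveI : Fact p.Prime := ⟨hpp⟩
  have hp2 : (2 : ℝ) ≤ p := by exact_mod_cast hpp.two_le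
  obtain ⟨γ, hγ⟩ := IsCyclic.exists_generator (α := (ZMod p)ˣ)
  have o1 := orbit p (fun x => x) γ hγ
  have o2 := orbit p (fun x => x ^ 2) γ hγ
  have o4 := orbit p (fun x => x ^ 4) γ hγ
  rw [sum_g, g_zero] at o1
  -- squares
  have s2 : ∑ t : ZMod p, g p t ^ 2 =
      p * ((univ.filter (fun z : ZMod p × ZMod p => z.1 ^ 3 = z.2 ^ 3)).card : ℝ) := by
    rw [← G2.parseval 3 p]
    refine Finset.sum_congr rfl fun t _ => ?_
    rw [GG_eq p h3, Complex.norm_real, Real.norm_eq_abs, sq_abs]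
  -- fourth powers
  have s4 : ∑ t : ZMod p, g p t ^ 4 = p * (Sol 3 4 p : ℝ) := by
    have e1 := h1 3 4 p
    simp only [GG_eq p h3] at e1
    exact_mod_cast e1.symm
  have hN : (1 : ℝ) + 3 * (p - 1) ≤
      ((univ.filter (fun z : ZMod p × ZMod p => z.1 ^ 3 = z.2 ^ 3)).card : ℝ) := by
    have := count_ge p hp3
    have h9 : ((1 + 3 * (p - 1) : ℕ) : ℝ) ≤
      ((univ.filter (fun z : ZMod p × ZMod p => z.1 ^ 3 = z.2 ^ 3)).card : ℝ) := by exact_mod_cast this
    rw [Nat.cast_add, Nat.cast_mul, Nat.cast_sub (by have := hpp.two_le; omega)] at h9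
    simpa using h9
  rw [s2, g_zero] at o2
  rw [s4, g_zero] at o4
  set N : ℝ := ((univ.filter (fun z : ZMod p × ZMod p => z.1 ^ 3 = z.2 ^ 3)).card : ℝ) with hNd
  set a := g p 1 with ha
  set b := g p (γ : ZMod p) with hb
  set c := g p ((γ : ZMod p) ^ 2) with hc
  have hP : (0 : ℝ) < p - 1 := by linarith
  have habc : a + b + c = 0 := by
    have : ((p : ℝ) - 1) * (a + b + c) = 0 := by rw [o1]; ring
    rcases mul_eq_zero.1 this with h | h
    · linarith
    · exact h
  have hQ : 6 * (p : ℝ) ≤ a ^ 2 + b ^ 2 + c ^ 2 := by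
    have h5 : ((p : ℝ) - 1) * (6 * p) ≤ (p - 1) * (a ^ 2 + b ^ 2 + c ^ 2) := by
      rw [o2]
      nlinarith
    exact le_of_mul_le_mul_left h5 hP
  have h4 : a ^ 4 + b ^ 4 + c ^ 4 = (a ^ 2 + b ^ 2 + c ^ 2) ^ 2 / 2 := by
    have : c = -(a + b) := by linarith
    rw [this]
    ring
  have h5 : 18 * (p : ℝ) ^ 2 ≤ a ^ 4 + b ^ 4 + c ^ 4 := by
    rw [h4]
    nlinarith
  have h6 : (p : ℝ) * ((p : ℝ) ^ 3 + 6 * p ^ 2 - 6 * p) ≤ p * (Sol 3 4 p : ℝ) := by
    have h7 : ((p : ℝ) - 1) * (18 * p ^ 2) ≤ (p - 1) * (a ^ 4 + b ^ 4 + c ^ 4) :=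
      mul_le_mul_of_nonneg_left h5 hP.le
    rw [o4] at h7
    nlinarith
  have h7 := le_of_mul_le_mul_left h6 (by linarith)
  rw [sol_prim 3 4 p (by norm_num)] at h7
  push_cast at h7
  exact h7

end Pool.Agent.Lead.MK.T.CUB
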