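import Pool.Agent.Lead.MK.Stubs3
import Pool.Agent.Lead.MK.T.MER
import Mathlib.NumberTheory.ArithmeticFunction.Misc
import Mathlib.Analysis.Normed.Ring.InfiniteSum
import Mathlib.Analysis.SpecificLimits.Normed

/-! MK3-ME3 (helper67) -/

set_option autoImplicit false

namespace Pool.Agent.Lead.MK.T.ME3

open Finset

/-- the character modulo 3 -/
noncomputable def chi (n : ℕ) : ℝ := if n % 3 = 1 then 1 else if n % 3 = 2 then -1 else 0

theorem chi_mul (a b : ℕ) : chi (a * b) = chi a * chi b := by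
  unfold chi
  rw [Nat.mul_mod]
  have ha : a % 3 < 3 := Nat.mod_lt _ (by norm_num)
  have hb : b % 3 < 3 := Nat.mod_lt _ (by norm_num)
  interval_cases (a % 3) <;> interval_cases (b % 3) <;> norm_num

theorem chi_pow (a k : ℕ) : chi (a ^ k) = chi a ^ k := by
  induction k with
  | zero => simp [chi]
  | succ k ih => rw [pow_succ, chi_mul, ih, pow_succ]

theorem chi_abs (a : ℕ) : |chi a| ≤ 1 := by
  unfold chi
  split_ifs <;> norm_num

/-- `n ↦ 1 / n` -/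
noncomputable def f : ArithmeticFunction ℝ := ⟨fun n => (n : ℝ)⁻¹, by simp⟩
/-- `n ↦ χ n / n` -/
noncomputable def g : ArithmeticFunction ℝ := ⟨fun n => chi n * (n : ℝ)⁻¹, by simp⟩

theorem f_apply (n : ℕ) : f n = (n : ℝ)⁻¹ := rfl
theorem g_apply (n : ℕ) : g n = chi n * (n : ℝ)⁻¹ := rfl

theorem f_mult : f.IsMultiplicative := by
  refine ⟨by simp [f_apply], fun {m n} _ => ?_⟩
  rw [f_apply, f_apply, f_apply]
  push_cast
  rw [mul_inv]

theorem g_mult : g.IsMultiplicative := by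
  refine ⟨by simp [g_apply, chi], fun {m n} _ => ?_⟩
  rw [g_apply, g_apply, g_apply, chi_mul]
  push_cast
  rw [mul_inv]
  ring

/-- the convolution -/
noncomputable def h : ArithmeticFunction ℝ := f * g

theorem h_mult : h.IsMultiplicative := f_mult.mul g_mult

theorem h_pow (p : ℕ) (hp : p.Prime) (k : ℕ) :
    h (p ^ k) = ∑ kl ∈ antidiagonal k, ((p : ℝ)⁻¹) ^ kl.1 * (chi p * (p : ℝ)⁻¹) ^ kl.2 := by
  unfold h
  rw [ArithmeticFunction.mul_apply,
    Nat.sum_divisorsAntidiagonal (f := fun a b => f a * g b),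
    Nat.sum_divisors_prime_pow hp,
    Finset.Nat.sum_antidiagonal_eq_sum_range_succ
      (fun a b => ((p : ℝ)⁻¹) ^ a * (chi p * (p : ℝ)⁻¹) ^ b)]
  refine sum_congr rfl fun i hi => ?_
  rw [mem_range] at hi
  rw [Nat.pow_div (by omega) hp.pos, f_apply, g_apply, chi_pow, mul_pow]
  push_cast
  rw [inv_pow, inv_pow]

theorem h_pow_nonneg (p : ℕ) (hp : p.Prime) (k : ℕ) : 0 ≤ h (p ^ k) := by
  rw [h_pow p hp, Finset.Nat.sum_antidiagonal_eq_sum_range_succ
      (fun a b => ((p : ℝ)⁻¹) ^ a * (chi p * (p : ℝ)⁻¹) ^ b)]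
  have h1 : ∑ i ∈ range k.succ, ((p : ℝ)⁻¹) ^ i * (chi p * (p : ℝ)⁻¹) ^ (k - i) =
      ((p : ℝ)⁻¹) ^ k * ∑ i ∈ range k.succ, chi p ^ i := by
    rw [← sum_range_reflect (fun i => chi p ^ i), mul_sum]
    refine sum_congr rfl fun i hi => ?_
    rw [mem_range] at hi
    have e : k.succ - 1 - i = k - i := by omega
    rw [e, mul_pow, mul_comm (chi p ^ (k - i)), ← mul_assoc, ← pow_add]
    congr 2
    omega
  rw [h1]
  refine mul_nonneg (by positivity) ?_
  unfold chi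
  split_ifs
  · simp; positivity
  · have : ∀ n : ℕ, 0 ≤ ∑ i ∈ range n, (-1 : ℝ) ^ i := by
      intro n
      rw [neg_one_geom_sum]
      split_ifs <;> norm_num
    exact this _
  · exact sum_nonneg fun i _ => by positivity

theorem h_nonneg (n : ℕ) : 0 ≤ h n := by
  rcases eq_or_ne n 0 with rfl | hn
  · simp
  · rw [h_mult.multiplicative_factorization h hn]
    exact Finset.prod_nonneg fun p hp => h_pow_nonneg p (Nat.prime_of_mem_primeFactors hp) _

/-- the partial sums -/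
theorem T_ge (x : ℕ) (hx : 1 ≤ x) : (1 : ℝ) / 2 ≤ ∑ d ∈ Ioc 0 x, g d := by
  have hs : ∀ n : ℕ, ∑ d ∈ Ioc 0 (n + 1), g d = ∑ d ∈ Ioc 0 n, g d + g (n + 1) := fun n => by
    rw [← Finset.insert_Ioc_right_eq_Ioc_add_one (by omega), sum_insert (by simp)]
    ring
  have key : ∀ k : ℕ, (1 : ℝ) / 2 ≤ ∑ d ∈ Ioc 0 (3 * k + 1), g d ∧
      (1 : ℝ) / 2 ≤ ∑ d ∈ Ioc 0 (3 * k + 2), g d ∧ (1 : ℝ) / 2 ≤ ∑ d ∈ Ioc 0 (3 * k + 3), g d := by
    intro k
    have hg1 : ∀ k : ℕ, g (3 * k + 1) = (3 * (k : ℝ) + 1)⁻¹ := fun k => by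
      rw [g_apply, chi, if_pos (by omega)]; push_cast; ring
    have hg2 : ∀ k : ℕ, g (3 * k + 2) = - (3 * (k : ℝ) + 2)⁻¹ := fun k => by
      rw [g_apply, chi, if_neg (by omega), if_pos (by omega)]; push_cast; ring
    have hg3 : ∀ k : ℕ, g (3 * k + 3) = 0 := fun k => by
      rw [g_apply, chi, if_neg (by omega), if_neg (by omega)]; ring
    have hle : ∀ k : ℕ, (3 * (k : ℝ) + 2)⁻¹ ≤ (3 * (k : ℝ) + 1)⁻¹ := fun k =>
      inv_anti₀ (by positivity) (by linarith)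
    induction k with
    | zero =>
      have e0 : ∑ d ∈ Ioc 0 0, g d = 0 := by simp
      have h1 := hs 0
      have h2 := hs 1
      have h3 := hs 2
      have a1 := hg1 0
      have a2 := hg2 0
      have a3 := hg3 0
      norm_num at h1 h2 h3 a1 a2 a3 ⊢
      rw [h3, h2, a1, a2, a3]
      norm_num
    | succ k ih =>
      obtain ⟨_, _, i3⟩ := ih
      have h1 := hs (3 * k + 3)
      have h2 := hs (3 * k + 4)
      have h3 := hs (3 * k + 5)
      have a1 := hg1 (k + 1)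
      have a2 := hg2 (k + 1)
      have a3 := hg3 (k + 1)
      have a4 := hle (k + 1)
      have a5 : 0 ≤ (3 * ((k + 1 : ℕ) : ℝ) + 1)⁻¹ := by positivity
      rw [show 3 * (k + 1) + 1 = 3 * k + 3 + 1 by ring] at a1
      rw [show 3 * (k + 1) + 2 = 3 * k + 4 + 1 by ring] at a2
      rw [show 3 * (k + 1) + 3 = 3 * k + 5 + 1 by ring] at a3
      rw [show 3 * (k + 1) + 1 = 3 * k + 3 + 1 by ring,
        show 3 * (k + 1) + 2 = 3 * k + 4 + 1 by ring,
        show 3 * (k + 1) + 3 = 3 * k + 5 + 1 by ring]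
      rw [show 3 * k + 4 = 3 * k + 3 + 1 by ring] at h2 a2
      rw [show 3 * k + 5 = 3 * k + 3 + 1 + 1 by ring] at h3 a3
      rw [show 3 * k + 4 = 3 * k + 3 + 1 by ring, show 3 * k + 5 = 3 * k + 3 + 1 + 1 by ring]
      refine ⟨?_, ?_, ?_⟩ <;> linarith
  obtain ⟨k, hk⟩ : ∃ k, x = 3 * k + 1 ∨ x = 3 * k + 2 ∨ x = 3 * k + 3 :=
    ⟨(x - 1) / 3, by omega⟩
  rcases hk with rfl | rfl | rfl
  · exact (key k).1
  · exact (key k).2.1
  · exact (key k).2.2

theorem lower (y : ℕ) (hy : 1 ≤ y) : Real.log y / 2 ≤ ∑ n ∈ Ioc 0 y, h n := by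
  unfold h
  rw [ArithmeticFunction.sum_Ioc_mul_eq_sum_sum]
  have h1 : ∑ n ∈ Ioc 0 y, (n : ℝ)⁻¹ * (1 / 2) ≤ ∑ n ∈ Ioc 0 y, f n * ∑ m ∈ Ioc 0 (y / n), g m := by
    refine sum_le_sum fun n hn => ?_
    rw [mem_Ioc] at hn
    rw [f_apply]
    exact mul_le_mul_of_nonneg_left (T_ge _ ((Nat.one_le_div_iff (by omega)).2 hn.2))
      (by positivity)
  refine le_trans ?_ h1
  rw [← sum_mul]
  have h4 := log_add_one_le_harmonic y
  have h5 : Real.log y ≤ Real.log (y + 1 : ℕ) :=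
    Real.log_le_log (by exact_mod_cast hy) (by push_cast; linarith)
  have h6 : ∑ n ∈ Ioc 0 y, (n : ℝ)⁻¹ = ((harmonic y : ℚ) : ℝ) := by
    rw [harmonic_eq_sum_Icc]
    push_cast
    rfl
  rw [h6]
  linarith

theorem euler3 (y : ℕ) : ∑ n ∈ Ioc 0 y, h n ≤
    ∏ p ∈ (Finset.range (y + 1)).filter Nat.Prime,
      ((1 - (p : ℝ)⁻¹)⁻¹ * (1 - chi p * (p : ℝ)⁻¹)⁻¹) := by
  have hlt : ∀ p : ℕ, p.Prime → ‖(p : ℝ)⁻¹‖ < 1 := fun p hp => by
    rw [norm_inv, Real.norm_natCast]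
    exact inv_lt_one_of_one_lt₀ (by exact_mod_cast hp.one_lt)
  have hlt2 : ∀ p : ℕ, p.Prime → ‖chi p * (p : ℝ)⁻¹‖ < 1 := fun p hp => by
    rw [norm_mul, Real.norm_eq_abs (chi p)]
    have h1 := hlt p hp
    have h2 := chi_abs p
    have h3 := norm_nonneg ((p : ℝ)⁻¹)
    nlinarith
  have hs1 : ∀ p : ℕ, p.Prime → Summable fun n : ℕ => ‖((p : ℝ)⁻¹) ^ n‖ := fun p hp =>
    summable_norm_geometric_of_norm_lt_one (hlt p hp)
  have hs2 : ∀ p : ℕ, p.Prime → Summable fun n : ℕ => ‖(chi p * (p : ℝ)⁻¹) ^ n‖ := fun p hp =>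
    summable_norm_geometric_of_norm_lt_one (hlt2 p hp)
  have hE := (EulerProduct.summable_and_hasSum_smoothNumbers_prod_primesBelow_tsum
    (f := fun n => h n) h_mult.1 (fun {m n} hmn => h_mult.2 hmn) (fun {p} hp => by
      have := summable_norm_sum_mul_antidiagonal_of_summable_norm (hs1 p hp) (hs2 p hp)
      refine this.congr fun n => ?_
      rw [h_pow p hp]) (y + 1)).2
  have hval : ∏ p ∈ (y + 1).primesBelow, ∑' n : ℕ, h (p ^ n) =
      ∏ p ∈ (Finset.range (y + 1)).filter Nat.Prime,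
      ((1 - (p : ℝ)⁻¹)⁻¹ * (1 - chi p * (p : ℝ)⁻¹)⁻¹) := by
    refine prod_congr rfl fun p hp => ?_
    have hp' : p.Prime := (mem_filter.1 hp).2
    rw [← tsum_geometric_of_norm_lt_one (hlt p hp'), ← tsum_geometric_of_norm_lt_one (hlt2 p hp'),
      tsum_mul_tsum_eq_tsum_sum_antidiagonal_of_summable_norm (hs1 p hp') (hs2 p hp')]
    exact tsum_congr fun n => h_pow p hp' n
  rw [hval] at hE
  have h' : HasSum ((Nat.smoothNumbers (y + 1)).indicator (fun n : ℕ => h n))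
      (∏ p ∈ (Finset.range (y + 1)).filter Nat.Prime,
      ((1 - (p : ℝ)⁻¹)⁻¹ * (1 - chi p * (p : ℝ)⁻¹)⁻¹)) :=
    hasSum_subtype_iff_indicator.1 hE
  have h2 := sum_le_hasSum (Finset.Ioc 0 y) (fun n _ => Set.indicator_nonneg
    (fun m _ => h_nonneg m) n) h'
  refine le_trans (le_of_eq ?_) h2
  refine Finset.sum_congr rfl fun n hn => ?_
  rw [Finset.mem_Ioc] at hn
  rw [Set.indicator_of_mem (Nat.mem_smoothNumbers_of_lt (by omega) (by omega))]

theorem main : S_ME3 := by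
  refine ⟨1 / 6, by norm_num, fun y hy => ?_⟩
  have hy0 : (2 : ℝ) ≤ y := by exact_mod_cast hy
  have h1 := (lower y (by omega)).trans (euler3 y)
  have h2 := MER.sq y (by omega)
  have h3 : (1 : ℝ) / 2 ≤ ((y : ℝ) + 1) / (2 * y) := by
    rw [div_le_div_iff₀ (by norm_num) (by positivity)]
    linarith
  have h4 := h3.trans h2
  set Q := (Finset.range (y + 1)).filter Nat.Prime with hQ
  have hfil : (Finset.range (y + 1)).filter (fun p => p.Prime ∧ p % 3 = 1) =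
      Q.filter (fun p => p % 3 = 1) := by
    rw [hQ, Finset.filter_filter]
  rw [hfil, Finset.prod_filter]
  have hB : ∏ p ∈ Q, (if p % 3 = 1 then ((1 - 1 / (p : ℝ))⁻¹) ^ 2 else 1) = _ := rfl
  set P := ∏ p ∈ Q, (if p % 3 = 1 then ((1 - 1 / (p : ℝ))⁻¹) ^ 2 else 1) with hP
  have hPnn : 0 ≤ P := by
    refine Finset.prod_nonneg fun p _ => ?_
    split_ifs <;> positivity
  have h5 : ∏ p ∈ Q, ((1 - (p : ℝ)⁻¹)⁻¹ * (1 - chi p * (p : ℝ)⁻¹)⁻¹) ≤
      P * (∏ p ∈ Q, (if p = 3 then (3 / 2 : ℝ) else 1)) * (∏ p ∈ Q, (1 - ((p : ℝ)⁻¹) ^ 2))⁻¹ := by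
    rw [hP, ← Finset.prod_inv_distrib, ← Finset.prod_mul_distrib, ← Finset.prod_mul_distrib]
    have hb : ∀ p ∈ Q, (p : ℝ)⁻¹ ≤ 1 / 2 ∧ 0 < (p : ℝ)⁻¹ := fun p hp => by
      have hp' : p.Prime := (mem_filter.1 hp).2
      have : (2 : ℝ) ≤ p := by exact_mod_cast hp'.two_le
      constructor
      · rw [inv_eq_one_div]; exact one_div_le_one_div_of_le (by norm_num) this
      · positivity
    refine Finset.prod_le_prod (fun p hp => ?_) (fun p hp => ?_)
    · obtain ⟨b1, b2⟩ := hb p hp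
      have := chi_abs p
      rw [abs_le] at this
      refine mul_nonneg (inv_nonneg.2 (by linarith)) (inv_nonneg.2 ?_)
      nlinarith
    · obtain ⟨b1, b2⟩ := hb p hp
      have hp' : p.Prime := (mem_filter.1 hp).2
      have c1 : 0 < 1 - ((p : ℝ)⁻¹) ^ 2 := by nlinarith
      have c2 : 1 ≤ (1 - ((p : ℝ)⁻¹) ^ 2)⁻¹ := (one_le_inv₀ c1).2 (by nlinarith)
      have c3 : 0 < 1 - (p : ℝ)⁻¹ := by linarith
      unfold chi
      by_cases e1 : p % 3 = 1
      · rw [if_pos e1, if_pos e1, if_neg (by rintro rfl; norm_num at e1), one_mul, one_div, mul_one,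
          ← sq]
        exact le_mul_of_one_le_right (by positivity) c2
      · rw [if_neg e1, if_neg e1, one_mul]
        by_cases e2 : p % 3 = 2
        · rw [if_pos e2, if_neg (by rintro rfl; norm_num at e2), one_mul, ← mul_inv]
          refine le_of_eq ?_
          congr 1
          ring
        · rw [if_neg e2]
          have e3 : p = 3 := by
            have : 3 ∣ p := by omega
            exact ((Nat.prime_dvd_prime_iff_eq (by norm_num) hp').1 this).symm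
          subst e3
          norm_num
  have h6 : ∏ p ∈ Q, (if p = 3 then (3 / 2 : ℝ) else 1) ≤ 3 / 2 := by
    rw [Finset.prod_ite_eq']
    split_ifs <;> norm_num
  have h6' : 0 ≤ ∏ p ∈ Q, (if p = 3 then (3 / 2 : ℝ) else 1) :=
    Finset.prod_nonneg fun p _ => by split_ifs <;> norm_num
  have h7 : (∏ p ∈ Q, (1 - ((p : ℝ)⁻¹) ^ 2))⁻¹ ≤ 2 := by
    rw [inv_le_comm₀ (by linarith) (by norm_num)]
    linarith
  have h7' : 0 ≤ (∏ p ∈ Q, (1 - ((p : ℝ)⁻¹) ^ 2))⁻¹ := inv_nonneg.2 (by linarith)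
  have h8 : P * (∏ p ∈ Q, (if p = 3 then (3 / 2 : ℝ) else 1)) *
      (∏ p ∈ Q, (1 - ((p : ℝ)⁻¹) ^ 2))⁻¹ ≤ P * (3 / 2) * 2 :=
    mul_le_mul (mul_le_mul_of_nonneg_left h6 hPnn) h7 h7' (by positivity)
  linarith

end Pool.Agent.Lead.MK.T.ME3
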