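import Pool.Agent.Lead.MK.T.FIN

/-! MK-D1 (helper63) -/

set_option autoImplicit false

namespace Pool.Agent.Lead.MK.T.D1

theorem main : S_D1 := by
  classical
  rintro k d hd hdk ⟨C, r₀, h⟩
  have hk : 1 ≤ k := by omega
  obtain ⟨t, ht⟩ := exists_nat_gt (max (|C| + 1) r₀)
  have ht1 : |C| + 1 < t := lt_of_le_of_lt (le_max_left _ _) ht
  have ht2 : r₀ < t := lt_of_le_of_lt (le_max_right _ _) ht
  have hC := abs_nonneg C
  have ht0 : (1 : ℝ) < t := by linarith
  have ht0' : 0 < t := by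
    have : (0 : ℝ) < t := by linarith
    exact_mod_cast this
  have hmem : (fun i : Fin d => if (i : ℕ) = 0 then (t : ℤ) else 0) ∈ Sph k d (t ^ k) := by
    show ∑ i : Fin d, |if (i : ℕ) = 0 then (t : ℤ) else 0| ^ k = ((t ^ k : ℕ) : ℤ)
    rw [Finset.sum_eq_single (⟨0, by omega⟩ : Fin d)]
    · simp
    · intro i _ hi
      have : (i : ℕ) ≠ 0 := fun h0 => hi (Fin.ext h0)
      rw [if_neg this]
      simp
      omega
    · intro h0
      exact absurd (Finset.mem_univ _) h0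
  have hrad : rad k (t ^ k) = t := by
    unfold rad
    push_cast
    rw [← Real.rpow_natCast, ← Real.rpow_mul (Nat.cast_nonneg t), mul_inv_cancel₀ (by
      have : (k : ℝ) ≠ 0 := by
        have : k ≠ 0 := by omega
        exact_mod_cast this
      exact this), Real.rpow_one]
  have h1 := h (t ^ k) (Nat.pow_pos ht0') ⟨_, hmem⟩ (by rw [hrad]; exact ht2.le)
  rw [hrad] at h1
  have hNN : (1 : ℝ) ≤ NN k d (t ^ k) := by
    have : 1 ≤ NN k d (t ^ k) := by
      unfold NN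
      exact (Set.ncard_pos (FIN.main k d (t ^ k) hk).1).2 ⟨_, hmem⟩
    exact_mod_cast this
  have hpow : (t : ℝ) ^ ((d : ℝ) - k) ≤ (t : ℝ)⁻¹ := by
    rw [← Real.rpow_neg_one]
    refine Real.rpow_le_rpow_of_exponent_le ht0.le ?_
    have : (d : ℝ) + 1 ≤ k := by exact_mod_cast hdk
    linarith
  have hpos : 0 < (t : ℝ) ^ ((d : ℝ) - k) := Real.rpow_pos_of_pos (by linarith) _
  have h2 : C * (t : ℝ) ^ ((d : ℝ) - k) ≤ |C| * (t : ℝ)⁻¹ :=
    mul_le_mul (le_abs_self C) hpow hpos.le hC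
  have h3 : |C| * (t : ℝ)⁻¹ < 1 := by
    rw [← div_eq_mul_inv, div_lt_one (by linarith)]
    linarith
  linarith

end Pool.Agent.Lead.MK.T.D1
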