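import Pool.Agent.Lead.MK.Stubs3
import Mathlib.Analysis.PSeries

/-! MK3-LOW3 (helper72) -/

set_option autoImplicit false

namespace Pool.Agent.Lead.MK.T.LOW3

theorem exp_bd {x : ℝ} (h0 : 0 ≤ x) (h1 : x ≤ 1 / 2) : Real.exp (-(2 * x)) ≤ 1 - x := by
  rw [Real.exp_neg, inv_le_comm₀ (Real.exp_pos _) (by linarith)]
  have h2 : 2 * x + 1 ≤ Real.exp (2 * x) := Real.add_one_le_exp _
  refine le_trans ?_ h2
  rw [inv_le_iff_one_le_mul₀ (by linarith)]
  nlinarith

/-- splitting of a product over the primes -/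
theorem split (P : ℕ → Prop) [DecidablePred P] (F : ℕ → ℝ) {p₀ y : ℕ} (hy : p₀ < y) :
    ∏ p ∈ (Finset.range (y + 1)).filter P, F p =
      (∏ p ∈ (Finset.range (p₀ + 1)).filter P, F p) * ∏ p ∈ (Finset.Ioc p₀ y).filter P, F p := by
  rw [← Finset.prod_union]
  · refine Finset.prod_congr ?_ fun _ _ => rfl
    ext q
    simp only [Finset.mem_filter, Finset.mem_range, Finset.mem_union, Finset.mem_Ioc]
    constructor
    · rintro ⟨h, hq⟩
      by_cases hqp : q ≤ p₀
      · exact Or.inl ⟨by omega, hq⟩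
      · exact Or.inr ⟨by omega, hq⟩
    · rintro (⟨h, hq⟩ | ⟨h, hq⟩)
      · exact ⟨by omega, hq⟩
      · exact ⟨by omega, hq⟩
  · rw [Finset.disjoint_left]
    intro q h1 h2
    simp only [Finset.mem_filter, Finset.mem_range, Finset.mem_Ioc] at h1 h2
    omega

/-- the local inequality for `p ≡ 1 (mod 3)` -/
theorem loc1 {u v C : ℝ} (hC : 0 ≤ C) (hu : 0 < u) (hu6 : u ≤ 1 / 7) (huv : u ^ 2 ≤ v)
    (hx : (C + 42) * v ≤ 1 / 2) :
    (1 + u) * ((1 - u)⁻¹) ^ 6 * (1 - (C + 42) * v) ≤ 1 + 7 * u - C * v := by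
  have hv : 0 ≤ v := le_trans (sq_nonneg u) huv
  have h1 : 0 < 1 - u := by linarith
  have h6 : 0 < (1 - u) ^ 6 := by positivity
  have hb : 1 - 6 * u ≤ (1 - u) ^ 6 := by
    have := one_add_mul_le_pow (a := -u) (by linarith) 6
    have e : (1 : ℝ) + (-u) = 1 - u := by ring
    rw [e] at this
    push_cast at this
    linarith
  have hCv : 0 ≤ C * v := mul_nonneg hC hv
  have hCv2 : C * v ≤ 1 / 2 := by nlinarith
  have key : (1 + u) * (1 - (C + 42) * v) ≤ (1 + 7 * u - C * v) * (1 - u) ^ 6 := by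
    have h2 : (1 + 7 * u - C * v) * (1 - 6 * u) ≤ (1 + 7 * u - C * v) * (1 - u) ^ 6 :=
      mul_le_mul_of_nonneg_left hb (by linarith)
    refine le_trans ?_ h2
    have h3 : 0 ≤ u * (C * v) := mul_nonneg hu.le hCv
    have h4 : 0 ≤ u * v := mul_nonneg hu.le hv
    nlinarith
  rw [inv_pow]
  have e : (1 + u) * ((1 - u) ^ 6)⁻¹ * (1 - (C + 42) * v) =
      ((1 + u) * (1 - (C + 42) * v)) / (1 - u) ^ 6 := by
    rw [div_eq_mul_inv]; ring
  rw [e, div_le_iff₀ h6]
  exact key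

theorem main (hM : S_MER) (h3 : S_ME3) : S_LOW3 := by
  intro C K hC
  obtain ⟨c, hc, hM⟩ := hM
  obtain ⟨c', hc', h3⟩ := h3
  set L : ℝ := C + 42 with hL
  have hL0 : 0 ≤ L := by linarith
  set p₀ : ℕ := max K (max ⌈2 * L⌉₊ 7) with hp₀
  have hK : K ≤ p₀ := le_max_left _ _
  have h7 : 7 ≤ p₀ := le_trans (le_max_right _ _) (le_max_right _ _)
  have hC2 : 2 * L ≤ p₀ := le_trans (Nat.le_ceil _) (by
    exact_mod_cast le_trans (le_max_left _ _) (le_max_right _ _))
  have h70 : (7 : ℝ) ≤ p₀ := by exact_mod_cast h7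
  set x : ℕ → ℝ := fun p => L * (p : ℝ) ^ (-(3 / 2) : ℝ) with hx
  have hx0 : ∀ p, 0 ≤ x p := fun p => mul_nonneg hL0 (Real.rpow_nonneg (Nat.cast_nonneg _) _)
  have hx1 : ∀ p, p₀ < p → x p ≤ 1 / 2 := by
    intro p hp
    have hp1 : (p₀ : ℝ) < p := by exact_mod_cast hp
    have h3 : (p : ℝ) ^ (-(3 / 2) : ℝ) ≤ (p : ℝ) ^ (-1 : ℝ) :=
      Real.rpow_le_rpow_of_exponent_le (by linarith) (by norm_num)
    have h4 : x p ≤ L * (p : ℝ) ^ (-1 : ℝ) := mul_le_mul_of_nonneg_left h3 hL0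
    refine h4.trans ?_
    rw [Real.rpow_neg_one, ← div_eq_mul_inv, div_le_div_iff₀ (by linarith) (by norm_num)]
    linarith
  have hsum : Summable x := by
    have : Summable (fun n : ℕ => (n : ℝ) ^ (-(3 / 2) : ℝ)) :=
      Real.summable_nat_rpow.2 (by norm_num)
    exact this.mul_left L
  set f : ℕ → ℝ := fun p => if p % 3 = 1 then ((1 - 1 / (p : ℝ))⁻¹) ^ 6 else 1 with hf
  have hf0 : ∀ p, 0 ≤ f p := by
    intro p
    simp only [hf]
    split_ifs
    · positivity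
    · norm_num
  have hfpos : ∀ p, p₀ < p → 0 < f p := by
    intro p hp
    have hp1 : (p₀ : ℝ) < p := by exact_mod_cast hp
    simp only [hf]
    split_ifs
    · have : 0 < 1 - 1 / (p : ℝ) := by
        rw [sub_pos, div_lt_one (by linarith)]
        linarith
      positivity
    · norm_num
  have hlow : ∀ p, p.Prime → p₀ < p →
      (1 + 1 / (p : ℝ)) * f p * Real.exp (-(2 * x p)) ≤
        1 + aa p / (p : ℝ) - C * (p : ℝ) ^ (-(3 / 2) : ℝ) := by
    intro p hp hpp
    have hp1 : (p₀ : ℝ) < p := by exact_mod_cast hpp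
    have h5 := exp_bd (hx0 p) (hx1 p hpp)
    have h6 : (0 : ℝ) < 1 / (p : ℝ) := by
      have : (0 : ℝ) < p := by linarith
      positivity
    have hv0 : 0 ≤ (p : ℝ) ^ (-(3 / 2) : ℝ) := Real.rpow_nonneg (Nat.cast_nonneg _) _
    have h8 : (1 + 1 / (p : ℝ)) * f p * Real.exp (-(2 * x p)) ≤
        (1 + 1 / (p : ℝ)) * f p * (1 - x p) :=
      mul_le_mul_of_nonneg_left h5 (mul_nonneg (by linarith) (hf0 p))
    refine le_trans h8 ?_
    have h9 := hx1 p hpp
    by_cases h31 : p % 3 = 1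
    · have e1 : f p = ((1 - 1 / (p : ℝ))⁻¹) ^ 6 := by simp only [hf, h31, if_true]
      have e2 : aa p = 7 := by simp only [aa, h31, if_true]
      rw [e1, e2]
      have h10 : (1 / (p : ℝ)) ^ 2 ≤ (p : ℝ) ^ (-(3 / 2) : ℝ) := by
        have h11 : (1 / (p : ℝ)) ^ 2 = (p : ℝ) ^ (-2 : ℝ) := by
          rw [Real.rpow_neg (by linarith), one_div, inv_pow]
          norm_num
        rw [h11]
        exact Real.rpow_le_rpow_of_exponent_le (by linarith) (by norm_num)
      have h12 : 1 / (p : ℝ) ≤ 1 / 7 := one_div_le_one_div_of_le (by norm_num) (by linarith)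
      have h13 := loc1 (u := 1 / (p : ℝ)) (v := (p : ℝ) ^ (-(3 / 2) : ℝ)) hC h6 h12 h10 h9
      have e3 : (7 : ℝ) / p = 7 * (1 / p) := by ring
      rw [e3]
      exact h13
    · have e1 : f p = 1 := by simp only [hf, h31, if_false]
      have e2 : aa p = 1 := by simp only [aa, h31, if_false]
      rw [e1, e2]
      simp only [hx, hL]
      nlinarith [mul_nonneg h6.le hv0, mul_nonneg h6.le (mul_nonneg hC hv0)]
  set A : ℝ := ∏ p ∈ (Finset.range (p₀ + 1)).filter Nat.Prime, (1 + 1 / (p : ℝ)) with hA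
  have hA0 : 0 < A := Finset.prod_pos fun p _ => by positivity
  set A' : ℝ := ∏ p ∈ (Finset.range (p₀ + 1)).filter (fun p => p.Prime ∧ p % 3 = 1),
    ((1 - 1 / (p : ℝ))⁻¹) ^ 2 with hA'
  have hA'0 : 0 < A' := by
    refine Finset.prod_pos fun p hp => ?_
    rw [Finset.mem_filter] at hp
    have h2 : (2 : ℝ) ≤ p := by exact_mod_cast hp.2.1.two_le
    have : 0 < 1 - 1 / (p : ℝ) := by
      rw [sub_pos, div_lt_one (by linarith)]
      linarith
    positivity
  set E : ℝ := Real.exp (-(2 * ∑' n, x n)) with hE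
  have hE0 : 0 < E := Real.exp_pos _
  refine ⟨c * E / A * (c' / A') ^ 3, p₀, by positivity, hK, ?_, ?_⟩
  · intro p hp hpp
    refine lt_of_lt_of_le ?_ (hlow p hp hpp)
    have := hfpos p hpp
    positivity
  · intro y hy
    have hy1 : (1 : ℝ) ≤ y := by
      have : 1 ≤ y := by omega
      exact_mod_cast this
    have hlog : 0 ≤ Real.log y := Real.log_nonneg hy1
    have h8 := hM y (by omega)
    have h8' := h3 y (by omega)
    rw [split _ _ hy] at h8 h8'
    have h10 : E ≤ ∏ p ∈ (Finset.Ioc p₀ y).filter Nat.Prime, Real.exp (-(2 * x p)) := by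
      rw [← Real.exp_sum, hE]
      refine Real.exp_le_exp.2 ?_
      rw [Finset.sum_neg_distrib, ← Finset.mul_sum]
      have := hsum.sum_le_tsum ((Finset.Ioc p₀ y).filter Nat.Prime) (fun i _ => hx0 i)
      linarith
    have h11 : ∏ p ∈ (Finset.Ioc p₀ y).filter Nat.Prime,
        ((1 + 1 / (p : ℝ)) * f p * Real.exp (-(2 * x p))) ≤
        ∏ p ∈ (Finset.Ioc p₀ y).filter Nat.Prime,
          (1 + aa p / (p : ℝ) - C * (p : ℝ) ^ (-(3 / 2) : ℝ)) := by
      refine Finset.prod_le_prod (fun p _ => ?_) fun p hp => ?_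
      · exact mul_nonneg (mul_nonneg (by positivity) (hf0 p)) (Real.exp_pos _).le
      · rw [Finset.mem_filter, Finset.mem_Ioc] at hp
        exact hlow p hp.2 hp.1.1
    refine le_trans ?_ h11
    rw [Finset.prod_mul_distrib, Finset.prod_mul_distrib]
    have h12 : c * Real.log y / A ≤
        ∏ p ∈ (Finset.Ioc p₀ y).filter Nat.Prime, (1 + 1 / (p : ℝ)) := by
      rw [div_le_iff₀ hA0, mul_comm _ A]
      exact h8
    have h13 : c' * Real.log y / A' ≤
        ∏ p ∈ (Finset.Ioc p₀ y).filter (fun p => p.Prime ∧ p % 3 = 1),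
          ((1 - 1 / (p : ℝ))⁻¹) ^ 2 := by
      rw [div_le_iff₀ hA'0, mul_comm _ A']
      exact h8'
    have h14 : (c' * Real.log y / A') ^ 3 ≤ ∏ p ∈ (Finset.Ioc p₀ y).filter Nat.Prime, f p := by
      have h15 : ∏ p ∈ (Finset.Ioc p₀ y).filter Nat.Prime, f p =
          (∏ p ∈ (Finset.Ioc p₀ y).filter (fun p => p.Prime ∧ p % 3 = 1),
            ((1 - 1 / (p : ℝ))⁻¹) ^ 2) ^ 3 := by
        rw [← Finset.prod_pow, ← Finset.filter_filter, Finset.prod_filter (p := fun p => p % 3 = 1)]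
        refine Finset.prod_congr rfl fun p _ => ?_
        simp only [hf]
        split_ifs
        · ring
        · rfl
      rw [h15]
      exact pow_le_pow_left₀ (by positivity) h13 3
    have hP1 : 0 ≤ ∏ p ∈ (Finset.Ioc p₀ y).filter Nat.Prime, (1 + 1 / (p : ℝ)) :=
      Finset.prod_nonneg fun p _ => by positivity
    have hP2 : 0 ≤ ∏ p ∈ (Finset.Ioc p₀ y).filter Nat.Prime, f p :=
      Finset.prod_nonneg fun p _ => hf0 p
    calc c * E / A * (c' / A') ^ 3 * Real.log y ^ 4 =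
          (c * Real.log y / A) * (c' * Real.log y / A') ^ 3 * E := by ring
      _ ≤ _ := mul_le_mul (mul_le_mul h12 h14 (by positivity) hP1) h10 hE0.le
          (mul_nonneg hP1 hP2)

end Pool.Agent.Lead.MK.T.LOW3
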